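import Mathlib
import Pool.Agent.TH813.Ell0K

/-!
# The fields of multipliers
-/

set_option autoImplicit false

noncomputable section

namespace Pool.Agent.H61GM

/-- the rational numbers, and the fields of multipliers of lattices: `kL L` consists of the numbers `c` such that
`n c` maps the lattice `L` to itself for some `n > 0` -/
def kk {q : ℕ} (Λ : Fin q → PeriodPair) : Option (Fin q) → IntermediateField ℚ ℂ
  | none => ⊥
  | some c => Pool.Agent.TH813.Ell.kL (Λ c)

end Pool.Agent.H61GM
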