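import Mathlib
import Pool.Agent.H39D.D2
import Pool.Agent.H39E.GP5
import Pool.Agent.H61GM.K

/-!
# Generic multipliers for tori and several elliptic curves: fields, spaces, values
-/

set_option autoImplicit false

open Filter Finset Module
open scoped Topology PeriodPair ComplexConjugate

noncomputable section

namespace Pool.Agent.H61GM

open H667R3 Pool.Agent.W245.EB Pool.Agent.TH813.Ell Pool.Agent.Y685
open Pool.Agent.TH813.G (NoHom)
open Pool.Agent.TH813.Rel (DF MK subset_cl rk_le_of_subset_cl exists_derF toENat_trdeg)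
open Pool.Agent.Y776 (ET ET_finite)
open Pool.Agent.Y776.Cv (EPM EPM_finite)
open Pool.Agent.H39D (Cl exists_Cl Ind rank_one)
open Pool.Agent.H39E (dE dE_li dE_mono fd_span disj Gen kL_mem' list_finite)

variable {q : ℕ} {Λ : Fin q → PeriodPair} {K : Subfield ℂ}

/-- the field generated by a field and a list -/
def EB (B : IntermediateField ℚ ℂ) (l : List ℂ) : IntermediateField ℚ ℂ :=
  B ⊔ IntermediateField.adjoin ℚ {x | x ∈ l}

theorem le_EB (B : IntermediateField ℚ ℂ) (l : List ℂ) : B ≤ EB B l := le_sup_left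

theorem EB_le {B F : IntermediateField ℚ ℂ} {l : List ℂ} (h1 : B ≤ F) (h2 : ∀ x ∈ l, x ∈ F) :
    EB B l ≤ F :=
  sup_le h1 (IntermediateField.adjoin_le_iff.2 h2)

theorem mem_EB {B : IntermediateField ℚ ℂ} {l : List ℂ} {x : ℂ} (hx : x ∈ l) : x ∈ EB B l :=
  (le_sup_right : IntermediateField.adjoin ℚ {x | x ∈ l} ≤ EB B l)
    (IntermediateField.subset_adjoin ℚ _ hx)

theorem EB_cons_le (B : IntermediateField ℚ ℂ) (a : ℂ) (l : List ℂ) : EB B l ≤ EB B (a :: l) :=
  EB_le (le_EB B _) (fun _ hx => mem_EB (List.mem_cons_of_mem a hx))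

theorem EB_nil (B : IntermediateField ℚ ℂ) : EB B [] = B :=
  le_antisymm (EB_le le_rfl (fun _ hx => absurd hx List.not_mem_nil)) (le_EB B _)

theorem EB_frac (B : IntermediateField ℚ ℂ) (a : ℂ) (u : List ℂ) : ∀ x ∈ EB B (a :: u),
    ∃ r s : Polynomial (EB B u), x = Polynomial.aeval a r / Polynomial.aeval a s := by
  intro x hx
  rw [← IntermediateField.mem_adjoin_simple_iff]
  have h1 : EB B (a :: u) ≤
      (IntermediateField.adjoin (EB B u) ({a} : Set ℂ)).restrictScalars ℚ := by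
    refine EB_le (fun y hy => ?_) (fun y hy => ?_)
    · exact (IntermediateField.adjoin (EB B u) ({a} : Set ℂ)).algebraMap_mem
        ⟨y, le_EB B u hy⟩
    · rcases List.mem_cons.1 hy with rfl | hy
      · exact IntermediateField.subset_adjoin (EB B u) _ rfl
      · exact (IntermediateField.adjoin (EB B u) ({a} : Set ℂ)).algebraMap_mem ⟨y, mem_EB hy⟩
  exact h1 hx

theorem kk_le (hK : ∀ x, IsAlgebraic K x → x ∈ K) (o : Option (Fin q)) : kk Λ o ≤ IFd K := by
  rcases o with _ | c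
  · exact bot_le
  · exact fun x hx => kL_mem' hK hx

theorem kk_clo (F : IntermediateField ℚ ℂ) (T : Set ℂ) (o : Option (Fin q)) :
    kk Λ o ≤ clo F T := by
  rcases o with _ | c
  · exact bot_le
  · exact fun _ hx D _ _ => der_kL D hx

/-- the closed fields attached to lists -/
def CL (Λ : Fin q → PeriodPair) {S : Set ℂ} (hS : S.Countable) :
    List ℂ → {K : Subfield ℂ // Cl Λ K}
  | [] => ⟨(exists_Cl Λ hS).choose, (exists_Cl Λ hS).choose_spec.1⟩
  | a :: l => ⟨(exists_Cl Λ (((CL Λ hS l).2.cnt).insert a)).choose,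
      (exists_Cl Λ (((CL Λ hS l).2.cnt).insert a)).choose_spec.1⟩

section

variable {S : Set ℂ} (hS : S.Countable)

theorem CL_base : S ⊆ (CL Λ hS []).1 := (exists_Cl Λ hS).choose_spec.2

theorem CL_cons (a : ℂ) (l : List ℂ) : insert a ((CL Λ hS l).1 : Set ℂ) ⊆ (CL Λ hS (a :: l)).1 :=
  (exists_Cl Λ (((CL Λ hS l).2.cnt).insert a)).choose_spec.2

theorem CL_mem (a : ℂ) (l : List ℂ) : a ∈ (CL Λ hS (a :: l)).1 :=
  CL_cons hS a l (Set.mem_insert _ _)

theorem CL_le (a : ℂ) (l : List ℂ) : (CL Λ hS l).1 ≤ (CL Λ hS (a :: l)).1 :=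
  fun _ hx => CL_cons hS a l (Set.mem_insert_of_mem _ hx)

theorem CL_nil_le (l : List ℂ) : (CL Λ hS []).1 ≤ (CL Λ hS l).1 := by
  induction l with
  | nil => exact le_rfl
  | cons a l ih => exact ih.trans (CL_le hS a l)

theorem CL_list (l : List ℂ) : ∀ x ∈ l, x ∈ (CL Λ hS l).1 := by
  induction l with
  | nil => intro x hx; exact absurd hx (List.not_mem_nil)
  | cons a l ih =>
    intro x hx
    rcases List.mem_cons.1 hx with rfl | hx
    · exact CL_mem hS _ l
    · exact CL_le hS a l (ih x hx)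

end

/-- the dimension over a field of the space generated by a set -/
def dS (E : IntermediateField ℚ ℂ) (X : Set ℂ) : ℕ := finrank E (Submodule.span E X)

/-- a basis of a space -/
theorem exists_fam {B : IntermediateField ℚ ℂ} (V : Submodule B ℂ) [FiniteDimensional B V] :
    ∃ p : Fin (finrank B V) → ℂ, LinearIndependent B p ∧ Submodule.span B (Set.range p) = V := by
  let b := finBasis B V
  have hp : LinearIndependent B (fun i => (b i : ℂ)) :=
    b.linearIndependent.map' (Submodule.subtype _) (Submodule.ker_subtype _)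
  refine ⟨fun i => (b i : ℂ), hp, ?_⟩
  have h2 : Submodule.span B (Set.range fun i => (b i : ℂ)) ≤ V := by
    rw [Submodule.span_le]
    rintro _ ⟨i, rfl⟩
    exact (b i).2
  exact Submodule.eq_of_le_of_finrank_eq h2 (by
    rw [finrank_span_eq_card hp, Fintype.card_fin])

theorem span_up {B E : IntermediateField ℚ ℂ} (hBE : B ≤ E) {n : ℕ} {p : Fin n → ℂ} {v : ℂ}
    (hv : v ∈ Submodule.span B (Set.range p)) : v ∈ Submodule.span E (Set.range p) := by
  obtain ⟨x, rfl⟩ := (Submodule.mem_span_range_iff_exists_fun B).1 hv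
  exact sum_mem (fun j _ => Submodule.smul_mem _ (⟨(x j : ℂ), hBE (x j).2⟩ : E)
    (Submodule.subset_span ⟨j, rfl⟩))

theorem span_EB {B E : IntermediateField ℚ ℂ} (hBE : B ≤ E) {n : ℕ} {V : Submodule B ℂ}
    {p : Fin n → ℂ} (h : Submodule.span B (Set.range p) = V) :
    Submodule.span E (Set.range p) = Submodule.span E (V : Set ℂ) := by
  apply le_antisymm
  · rw [Submodule.span_le]
    rintro _ ⟨i, rfl⟩
    apply Submodule.subset_span
    rw [← h]
    exact Submodule.subset_span ⟨i, rfl⟩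
  · rw [Submodule.span_le]
    intro x hx
    rw [← h] at hx
    exact span_up hBE hx

theorem dS_eq {B E : IntermediateField ℚ ℂ} (hBE : B ≤ E) {n : ℕ} {V : Submodule B ℂ}
    {p : Fin n → ℂ} (h : Submodule.span B (Set.range p) = V) : dS E (V : Set ℂ) = dE E p := by
  unfold dS dE
  rw [span_EB hBE h]

theorem dS_self {B : IntermediateField ℚ ℂ} (V : Submodule B ℂ) :
    dS B (V : Set ℂ) = finrank B V := by
  unfold dS
  rw [Submodule.span_eq]

theorem fd_up {B E : IntermediateField ℚ ℂ} (hBE : B ≤ E) (V : Submodule B ℂ)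
    [FiniteDimensional B V] : FiniteDimensional E (Submodule.span E (V : Set ℂ)) := by
  obtain ⟨p, -, hpV⟩ := exists_fam V
  rw [← span_EB hBE hpV]
  exact fd_span _ _

/-- a space inside a closed field keeps its dimension -/
theorem disj_V (hK : ∀ x, IsAlgebraic K x → x ∈ K) {B : IntermediateField ℚ ℂ} (hB : B ≤ IFd K)
    {a : ℂ} (ha : a ∉ K) {l : List ℂ} (hl : ∀ x ∈ l, x ∈ K) (V : Submodule B ℂ)
    [FiniteDimensional B V] (hV : ∀ x ∈ V, x ∈ K) :
    dS (EB B l) (V : Set ℂ) ≤ dS (EB B (a :: l)) (V : Set ℂ) := by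
  obtain ⟨p, -, hpV⟩ := exists_fam V
  rw [dS_eq (le_EB B l) hpV, dS_eq (le_EB B (a :: l)) hpV]
  have h1 : EB B l ≤ IFd K := EB_le hB hl
  exact disj hK (fun x hx => h1 hx) ha (EB_frac B a l) (EB_cons_le B a l) p (fun i => by
    apply hV
    rw [← hpV]
    exact Submodule.subset_span ⟨i, rfl⟩)

/-- generators of a space modulo its part in the closed field -/
theorem gens_V {F B E : IntermediateField ℚ ℂ} (hBE : B ≤ E) (T : Set ℂ) (hE : E ≤ clo F T)
    (V V' : Submodule B ℂ) [FiniteDimensional B V] (hVV : V' ≤ V) (hV' : ∀ x ∈ V', x ∈ F) :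
    ∃ (D : ℕ) (y : Fin D → ℂ), D + dS E (V' : Set ℂ) = dS E (V : Set ℂ) ∧
      ∀ v ∈ V, v ∈ clo F (T ∪ Set.range y) := by
  have : FiniteDimensional B V' := Submodule.finiteDimensional_of_le hVV
  obtain ⟨p, -, hpV⟩ := exists_fam V
  obtain ⟨p', -, hpV'⟩ := exists_fam V'
  obtain ⟨D, y, hD, hy⟩ := Pool.Agent.H39E.exists_gens (F := F) E p p' (fun i => by
    apply span_up hBE
    rw [hpV]
    apply hVV
    rw [← hpV']
    exact Submodule.subset_span ⟨i, rfl⟩) T hE (fun i => by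
    apply hV'
    rw [← hpV']
    exact Submodule.subset_span ⟨i, rfl⟩)
  refine ⟨D, y, ?_, fun v hv => hy v ?_⟩
  · rw [dS_eq hBE hpV, dS_eq hBE hpV', hD]
  · apply span_up hBE
    rw [hpV]
    exact hv

/-- generators of a space modulo a part inside a closed field -/
theorem gens_X {F E : IntermediateField ℚ ℂ} (T : Set ℂ) (hE : E ≤ clo F T)
    (X X' : Submodule E ℂ) [FiniteDimensional E X] (hXX : X' ≤ X)
    (hX' : ∀ x ∈ X', x ∈ clo F T) :
    ∃ (D : ℕ) (y : Fin D → ℂ), D + finrank E X' = finrank E X ∧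
      ∀ v ∈ X, v ∈ clo F (T ∪ Set.range y) := by
  obtain ⟨Y, hYX, hYA, hYn⟩ := exists_rel_compl hXX
  have hYf : FiniteDimensional E Y := Submodule.finiteDimensional_of_le hYX
  have hX'f : FiniteDimensional E X' := Submodule.finiteDimensional_of_le hXX
  let b := finBasis E Y
  have hsup : Y ⊔ X' = X := by
    apply Submodule.eq_of_le_of_finrank_eq (sup_le hYX hXX)
    have h3 := Submodule.finrank_sup_add_finrank_inf_eq Y X'
    rw [hYA, finrank_bot] at h3
    omega
  have hup : ∀ x, x ∈ clo F T → x ∈ clo F (T ∪ Set.range fun i => (b i : ℂ)) := by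
    intro x hx D hD hS
    exact hx D hD (fun s hs => hS s (Or.inl hs))
  refine ⟨finrank E Y, fun i => (b i : ℂ), hYn, fun v hv => ?_⟩
  rw [← hsup] at hv
  obtain ⟨y, hy, z, hz, rfl⟩ := Submodule.mem_sup.1 hv
  refine add_mem ?_ (hup z (hX' z hz))
  have h4 := b.sum_repr ⟨y, hy⟩
  have h5 : y = ∑ i, ((b.repr ⟨y, hy⟩ i : E) : ℂ) * (b i : ℂ) := by
    have h6 := congrArg (Submodule.subtype Y) h4
    rw [map_sum] at h6
    exact h6.symm
  rw [h5]
  exact sum_mem (fun i _ => mul_mem (hup _ (hE (b.repr ⟨y, hy⟩ i).2))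
    (subset_clo (Or.inr ⟨i, rfl⟩)))

/-- the union of the spaces of a block -/
def SJ {ι : Type} (β : Option (Fin q) → ι) (V : ∀ o, Submodule (kk Λ o) ℂ) (i : ι) : Set ℂ :=
  {x | ∃ o, β o = i ∧ x ∈ V o}

theorem SJ_mono {ι : Type} {β : Option (Fin q) → ι} {V W : ∀ o, Submodule (kk Λ o) ℂ}
    (h : ∀ o, V o ≤ W o) (i : ι) : SJ β V i ⊆ SJ β W i := by
  rintro x ⟨o, ho, hx⟩
  exact ⟨o, ho, h o hx⟩

theorem fd_SJ {ι : Type} {β : Option (Fin q) → ι} {E : IntermediateField ℚ ℂ} {i : ι}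
    (hE : ∀ o, β o = i → kk Λ o ≤ E) (V : ∀ o, Submodule (kk Λ o) ℂ)
    (hfd : ∀ o, FiniteDimensional (kk Λ o) (V o)) :
    FiniteDimensional E (Submodule.span E (SJ β V i)) := by
  choose p hp hpV using fun o => exists_fam (V o)
  have h1 : Submodule.span E (SJ β V i) ≤ Submodule.span E (⋃ o, Set.range (p o)) := by
    rw [Submodule.span_le]
    rintro x ⟨o, ho, hx⟩
    rw [← hpV o] at hx
    exact Submodule.span_mono (Set.subset_iUnion_of_subset o subset_rfl) (span_up (hE o ho) hx)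
  have h2 : FiniteDimensional E (Submodule.span E (⋃ o, Set.range (p o))) :=
    FiniteDimensional.span_of_finite E (Set.finite_iUnion fun o => Set.finite_range (p o))
  exact Submodule.finiteDimensional_of_le h1

/-- the union of the spaces of a block and of a finite set -/
def SZ {ι : Type} (Z : ι → Set ℂ) (β : Option (Fin q) → ι) (V : ∀ o, Submodule (kk Λ o) ℂ)
    (i : ι) : Set ℂ := Z i ∪ SJ β V i

theorem SZ_mono {ι : Type} {Z : ι → Set ℂ} {β : Option (Fin q) → ι}
    {V W : ∀ o, Submodule (kk Λ o) ℂ} (h : ∀ o, V o ≤ W o) (i : ι) :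
    SZ Z β V i ⊆ SZ Z β W i := Set.union_subset_union_right _ (SJ_mono h i)

theorem fd_SZ {ι : Type} {Z : ι → Set ℂ} {β : Option (Fin q) → ι} {E : IntermediateField ℚ ℂ}
    {i : ι} (hZ : (Z i).Finite) (hE : ∀ o, β o = i → kk Λ o ≤ E)
    (V : ∀ o, Submodule (kk Λ o) ℂ) (hfd : ∀ o, FiniteDimensional (kk Λ o) (V o)) :
    FiniteDimensional E (Submodule.span E (SZ Z β V i)) := by
  have h1 := fd_SJ (β := β) hE V hfd
  have h2 : FiniteDimensional E (Submodule.span E (Z i)) := FiniteDimensional.span_of_finite E hZ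
  unfold SZ
  rw [Submodule.span_union]
  infer_instance

/-- a set inside a closed field keeps its dimension -/
theorem disj_S (hK : ∀ x, IsAlgebraic K x → x ∈ K) {B : IntermediateField ℚ ℂ} (hB : B ≤ IFd K)
    {a : ℂ} (ha : a ∉ K) {l : List ℂ} (hl : ∀ x ∈ l, x ∈ K) (X : Set ℂ)
    (hf : FiniteDimensional (EB B l) (Submodule.span (EB B l) X)) (hX : X ⊆ K) :
    dS (EB B l) X ≤ dS (EB B (a :: l)) X := by
  have h1 : EB B l ≤ IFd K := EB_le hB hl
  obtain ⟨p, hp, hpV⟩ := exists_fam (Submodule.span (EB B l) X)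
  have h2 : Submodule.span (EB B (a :: l)) (Set.range p) =
      Submodule.span (EB B (a :: l)) X := by
    rw [span_EB (EB_cons_le B a l) hpV]
    apply le_antisymm
    · rw [Submodule.span_le]
      intro x hx
      rw [SetLike.mem_coe] at hx
      refine Submodule.span_induction (fun y hy => Submodule.subset_span hy)
        (Submodule.zero_mem _) (fun y z _ _ h h' => Submodule.add_mem _ h h')
        (fun c y _ h => ?_) hx
      exact Submodule.smul_mem _ (⟨(c : ℂ), EB_cons_le B a l c.2⟩ : EB B (a :: l)) h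
    · exact Submodule.span_mono Submodule.subset_span
  have h3 : dS (EB B l) X = dE (EB B l) p := by
    unfold dS dE
    rw [hpV]
  have h4 : dS (EB B (a :: l)) X = dE (EB B (a :: l)) p := by
    unfold dS dE
    rw [h2]
  rw [h3, h4]
  refine disj hK (fun x hx => h1 hx) ha (EB_frac B a l) (EB_cons_le B a l) p (fun i => ?_)
  have h5 : p i ∈ Submodule.span (EB B l) X := by
    rw [← hpV]
    exact Submodule.subset_span ⟨i, rfl⟩
  refine Submodule.span_induction (p := fun x _ => x ∈ K) (fun y hy => hX hy)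
    (zero_mem K) (fun y z _ _ h h' => add_mem h h') (fun c y _ h => ?_) h5
  exact mul_mem (h1 c.2 : (c : ℂ) ∈ IFd K) h

/-- the values at the points of the spaces -/
def vals (Λ : Fin q → PeriodPair) (b : Bool) (V : ∀ o, Submodule (kk Λ o) ℂ) : Set ℂ :=
  {w | (∃ x ∈ V none, w = Complex.exp x) ∨ ∃ c, ∃ x ∈ V (some c), x ∉ (Λ c).lattice ∧
    (w = ℘[Λ c] x ∨ (b = true ∧ w = zt (Λ c) x))}

theorem vals_mono {b : Bool} {V W : ∀ o, Submodule (kk Λ o) ℂ} (h : ∀ o, V o ≤ W o) :
    vals Λ b V ⊆ vals Λ b W := by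
  rintro w (⟨x, hx, hw⟩ | ⟨c, x, hx, hxL, hw⟩)
  · exact Or.inl ⟨x, h _ hx, hw⟩
  · exact Or.inr ⟨c, x, h _ hx, hxL, hw⟩

theorem vals_mem (hK : Cl Λ K) {b : Bool} {V : ∀ o, Submodule (kk Λ o) ℂ}
    (h : ∀ o, ∀ x ∈ V o, x ∈ K) {w : ℂ} (hw : w ∈ vals Λ b V) : w ∈ K := by
  rcases hw with ⟨x, hx, rfl⟩ | ⟨c, x, hx, hxL, rfl | ⟨-, rfl⟩⟩
  · exact hK.exp x (h _ x hx)
  · exact hK.wp c x (h _ x hx)
  · exact hK.zt c x (h _ x hx)

/-- the closed field as a space -/
def KS (hK : ∀ x, IsAlgebraic K x → x ∈ K) (o : Option (Fin q)) : Submodule (kk Λ o) ℂ where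
  carrier := K
  add_mem' := fun ha hb => add_mem ha hb
  zero_mem' := zero_mem K
  smul_mem' := fun a _ hx => mul_mem (kk_le hK o a.2 : (a : ℂ) ∈ IFd K) hx

theorem cost {F : IntermediateField ℚ ℂ} {A T B : Set ℂ} {ι : Type} [Fintype ι] (y : ι → ℂ)
    (hTB : T ⊆ B) (hA : ∀ v ∈ A, v ∈ B ∨ v ∈ clo F (T ∪ Set.range y)) :
    (MK F).eRk A ≤ (MK F).eRk B + (Fintype.card ι : ℕ∞) := by
  have h1 : (MK F).eRk A ≤ (MK F).eRk (B ∪ Set.range y) := by
    apply rk_le_of_subset_cl
    intro v hv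
    rw [← mem_clo_iff]
    rcases hA v hv with h | h
    · exact subset_clo (Or.inl h)
    · exact clo_le (fun s hs => by
        rcases hs with hs | hs
        · exact subset_clo (Or.inl (hTB hs))
        · exact subset_clo (Or.inr hs)) h
  refine h1.trans (((MK F).eRk_union_le_eRk_add_eRk _ _).trans ?_)
  refine add_le_add le_rfl (((MK F).eRk_le_encard _).trans ?_)
  have h2 : (Set.range y).encard ≤ (Set.univ : Set ι).encard := by
    rw [← Set.image_univ]
    exact Set.encard_image_le _ _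
  refine h2.trans ?_
  rw [Set.encard_univ, ENat.card_eq_coe_fintype_card]

/-- the closure of a set inside a closed field -/
theorem clo_le_IFd (hK : ∀ x, IsAlgebraic K x → x ∈ K) {C : IntermediateField ℚ ℂ}
    (hC : C ≤ IFd K) {A : Set ℂ} (hA : A ⊆ K) : clo C A ≤ IFd K := by
  intro x hx
  by_contra hxK
  have htr : Transcendental (IFd K) x := fun h => hxK (hK x h)
  have hai : AlgebraicIndependent (IFd K) (fun _ : Unit => x) :=
    algebraicIndependent_unique_type_iff.2 htr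
  obtain ⟨D, hD, hD1⟩ := exists_derF (IFd K) hai (fun _ => 1)
  have h1 := hx D (fun y hy => hD y (hC hy)) (fun y hy => hD y (hA hy))
  rw [hD1 ()] at h1
  exact one_ne_zero h1

/-- the rank of a union -/
theorem union_ge {k : Type} [Field k] [Algebra k ℂ] (hK : ∀ x, IsAlgebraic K x → x ∈ K)
    (hk : ∀ x : k, algebraMap k ℂ x ∈ K) {A B : Set ℂ}
    (hA : A.Finite) (hB : B.Finite) (hAK : A ⊆ K) :
    (MK k).eRk A + (MK (IFd K)).eRk B ≤ (MK k).eRk (A ∪ B) := by
  rw [← MK_FR k, rank_add hA hB]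
  refine add_le_add le_rfl (rank_mono_base (clo_le_IFd hK ?_ hAK) hB)
  rintro _ ⟨x, rfl⟩
  exact hk x

theorem base_le' {k : Type} [Field k] [Algebra k ℂ] (hk : ∀ x : k, algebraMap k ℂ x ∈ K)
    {S : Set ℂ} (hS : S.Finite) : (MK (IFd K)).eRk S ≤ (MK k).eRk S := by
  rw [← MK_FR k]
  exact rank_mono_base (by rintro _ ⟨x, rfl⟩; exact hk x) hS

theorem rank_point (hK : ∀ x, IsAlgebraic K x → x ∈ K) {a : ℂ} (ha : a ∉ K) :
    ((1 : ℕ) : ℕ∞) ≤ (MK (IFd K)).eRk {a} := by
  obtain ⟨r, hr, hr'⟩ := trd_eq (IFd K) (Set.finite_singleton a)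
  rw [hr]
  rcases Nat.eq_zero_or_pos r with rfl | h0
  · exfalso
    rw [Nat.cast_zero] at hr'
    have h1 : Algebra.IsAlgebraic (IFd K) (IntermediateField.adjoin (IFd K) {a}) :=
      trdeg_eq_zero_iff.1 hr'
    have h5 := h1.isAlgebraic (⟨a, IntermediateField.subset_adjoin (IFd K) _ rfl⟩ :
        IntermediateField.adjoin (IFd K) {a})
    exact ha (hK a (h5.algebraMap (A := ℂ)))
  · exact_mod_cast h0

end Pool.Agent.H61GM
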