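import Mathlib
import Pool.Agent.H61GM.A

/-!
# Generic multipliers for tori and several elliptic curves: the outer part
-/

set_option autoImplicit false

open Filter Finset Module
open scoped Topology PeriodPair ComplexConjugate

noncomputable section

namespace Pool.Agent.H61GM

open H667R3 Pool.Agent.W245.EB Pool.Agent.TH813.Ell Pool.Agent.Y685
open Pool.Agent.TH813.G (NoHom)
open Pool.Agent.TH813.Rel (DF MK subset_cl rk_le_of_subset_cl exists_derF toENat_trdeg)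
open Pool.Agent.Y776 (ET ET_finite)
open Pool.Agent.Y776.Cv (EPM EPM_finite)
open Pool.Agent.H39D (Cl exists_Cl Ind rank_one)
open Pool.Agent.H39E (dE dE_li dE_mono fd_span disj Gen kL_mem' list_finite)

variable {q : ℕ} {Λ : Fin q → PeriodPair} {K : Subfield ℂ}

/-- spaces which meet the closed field in zero -/
theorem outer (hK : Cl Λ K) (hni : ∀ c c', c ≠ c' → NoHom (Λ c) (Λ c')) (b : Bool)
    (Y : ∀ o, Submodule (kk Λ o) ℂ) (hfd : ∀ o, FiniteDimensional (kk Λ o) (Y o))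
    (hY : ∀ o, ∀ x ∈ Y o, x ∈ K → x = 0) (hpos : 0 < ∑ o, finrank (kk Λ o) (Y o)) {T : Set ℂ}
    {ι : Type} [Fintype ι] (y : ι → ℂ)
    (hy : ∀ o, ∀ v ∈ Y o, v ∈ clo (IFd K) (T ∪ Set.range y)) :
    ∃ A : Set ℂ, A.Finite ∧ A ⊆ vals Λ b Y ∧
      ((finrank (kk Λ none) (Y none) + (1 + b.toNat) * ∑ c, finrank (kk Λ (some c)) (Y (some c)) + 1 : ℕ) :
        ℕ∞) ≤ (MK (IFd K)).eRk (A ∪ T) + (Fintype.card ι : ℕ∞) := by
  classical
  choose p hp hpY using fun o => exists_fam (Y o)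
  have hpm : ∀ o i, p o i ∈ Y o := by
    intro o i
    rw [← hpY o]
    exact Submodule.subset_span ⟨i, rfl⟩
  obtain ⟨nc, hnc⟩ : ∃ nc : Fin q → ℕ, nc = fun c => finrank (kk Λ (some c)) (Y (some c)) := ⟨_, rfl⟩
  obtain ⟨s, hs⟩ : ∃ s : ℕ, s = finrank (kk Λ none) (Y none) := ⟨_, rfl⟩
  obtain ⟨t, ht, htY⟩ : ∃ t : Fin s → ℂ, LinearIndependent (kk Λ none) t ∧ ∀ l, t l ∈ Y none := by
    subst hs
    exact ⟨p none, hp none, hpm none⟩
  obtain ⟨w, hw, hwY⟩ : ∃ w : ∀ c, Fin (nc c) → ℂ, (∀ c, LinearIndependent (kk Λ (some c)) (w c)) ∧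
      ∀ c i, w c i ∈ Y (some c) := by
    subst hnc
    exact ⟨fun c => p (some c), fun c => hp _, fun c i => hpm _ i⟩
  obtain ⟨n, hn⟩ : ∃ n : ℕ, n = Fintype.card (Σ c, Fin (nc c)) := ⟨_, rfl⟩
  obtain ⟨e⟩ : Nonempty ((Σ c, Fin (nc c)) ≃ Fin n) := by
    subst hn
    exact ⟨Fintype.equivFin _⟩
  have hn' : n = ∑ c, nc c := by
    rw [hn, Fintype.card_sigma]
    simp
  obtain ⟨ty, hty⟩ : ∃ ty : Fin n → Fin q, ty = fun i => (e.symm i).1 := ⟨_, rfl⟩
  obtain ⟨z, hz⟩ : ∃ z : Fin n → ℂ, z = fun i => w (e.symm i).1 (e.symm i).2 := ⟨_, rfl⟩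
  have htye : ∀ σ, ty (e σ) = σ.1 := by
    intro σ
    rw [hty]
    simp
  have hze : ∀ σ, z (e σ) = w σ.1 σ.2 := by
    intro σ
    rw [hz]
    exact congrArg (fun τ : Σ c, Fin (nc c) => w τ.1 τ.2) (e.symm_apply_apply σ)
  have hzY : ∀ i, z i ∈ Y (some (ty i)) := by
    intro i
    rw [hz, hty]
    exact hwY _ _
  have hI : Ind Λ K ty z t := by
    refine ⟨?_, ?_⟩
    · intro c₀ c hc hct hsum
      have h1 : ∑ i, c i * z i = ∑ j, c (e ⟨c₀, j⟩) * w c₀ j := by
        rw [← Equiv.sum_comp e, Fintype.sum_sigma, Finset.sum_eq_single c₀]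
        · exact sum_congr rfl (fun j _ => by rw [hze])
        · intro c' _ hc'
          refine sum_eq_zero (fun j _ => ?_)
          rw [hct (e ⟨c', j⟩) (by rw [htye]; exact hc'), zero_mul]
        · intro h
          exact absurd (mem_univ _) h
      rw [h1] at hsum
      have h2 : ∑ j, c (e ⟨c₀, j⟩) * w c₀ j ∈ Y (some c₀) := by
        refine sum_mem (fun j _ => ?_)
        exact Submodule.smul_mem _ (⟨c (e ⟨c₀, j⟩), hc _⟩ : kk Λ (some c₀)) (hwY c₀ j)
      have h3 := hY _ _ h2 hsum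
      have h4 := Fintype.linearIndependent_iff.1 (hw c₀)
        (fun j => (⟨c (e ⟨c₀, j⟩), hc _⟩ : kk Λ (some c₀))) h3
      funext i
      by_cases hi : ty i = c₀
      · obtain ⟨σ, rfl⟩ := e.surjective i
        rw [htye] at hi
        obtain ⟨c', j⟩ := σ
        obtain rfl : c' = c₀ := hi
        exact congrArg Subtype.val (h4 j)
      · exact hct i hi
    · intro r hr
      have h2 : ∑ l, r l • t l ∈ Y none := by
        refine sum_mem (fun l _ => ?_)
        have e1 : r l • t l = (algebraMap ℚ (kk Λ none) (r l)) • t l := by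
          rw [algebraMap_smul]
        rw [e1]
        exact Submodule.smul_mem _ _ (htY l)
      have h3 := hY _ _ h2 hr
      have h4 := Fintype.linearIndependent_iff.1 ht
        (fun l => algebraMap ℚ (kk Λ none) (r l)) (by
          rw [← h3]
          exact sum_congr rfl (fun l _ => by rw [algebraMap_smul]))
      funext l
      exact (algebraMap ℚ (kk Λ none)).injective ((h4 l).trans (map_zero _).symm)
  have hpos' : 0 < n + s := by
    rw [Fintype.sum_option, ← hs] at hpos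
    have h1 : ∑ c, nc c = ∑ c, finrank (kk Λ (some c)) (Y (some c)) := by rw [hnc]
    omega
  have h1 := rank_one hK hni hI hpos'
  have hzL : ∀ i, z i ∉ (Λ (ty i)).lattice := fun i h => hI.zK i (hK.lat_mem h)
  have hfin : (ET t ∪ EPM Λ ty z).Finite := (ET_finite t).union (EPM_finite z)
  refine ⟨(ET t ∪ EPM Λ ty z) ∩ vals Λ b Y, hfin.subset Set.inter_subset_left,
    Set.inter_subset_right, ?_⟩
  have hexp : ∀ l, Complex.exp (t l) ∈ (ET t ∪ EPM Λ ty z) ∩ vals Λ b Y := fun l =>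
    ⟨Or.inl (Or.inr ⟨l, rfl⟩), Or.inl ⟨t l, htY l, rfl⟩⟩
  have hwp : ∀ i, ℘[Λ (ty i)] (z i) ∈ (ET t ∪ EPM Λ ty z) ∩ vals Λ b Y := fun i =>
    ⟨Or.inr (Or.inr (Or.inr ⟨i, rfl⟩)), Or.inr ⟨ty i, z i, hzY i, hzL i, Or.inl rfl⟩⟩
  have hs1 : finrank (kk Λ none) (Y none) = s := hs.symm
  have hn1 : ∑ c, finrank (kk Λ (some c)) (Y (some c)) = n := by rw [hn', hnc]
  rw [hs1, hn1]
  cases b with
  | true =>
    have h2 := cost (F := IFd K) (A := ET t ∪ EPM Λ ty z) (T := T)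
      (B := (ET t ∪ EPM Λ ty z) ∩ vals Λ true Y ∪ T) y Set.subset_union_right (by
        rintro x ((⟨l, rfl⟩ | ⟨l, rfl⟩) | (⟨i, rfl⟩ | ⟨i, rfl⟩ | ⟨i, rfl⟩))
        · exact Or.inr (hy _ _ (htY l))
        · exact Or.inl (Or.inl (hexp l))
        · exact Or.inr (hy _ _ (hzY i))
        · exact Or.inl (Or.inl ⟨Or.inr (Or.inr (Or.inl ⟨i, rfl⟩)), Or.inr ⟨ty i, z i, hzY i, hzL i,
            Or.inr ⟨rfl, rfl⟩⟩⟩)
        · exact Or.inl (Or.inl (hwp i)))
    have h3 := h1.trans h2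
    have e1 : s + (1 + true.toNat) * n + 1 = s + 2 * n + 1 := by
      simp only [Bool.toNat_true]
    rw [e1]
    exact h3
  | false =>
    have h2 := cost (F := IFd K) (A := ET t ∪ EPM Λ ty z) (T := T)
      (B := (ET t ∪ EPM Λ ty z) ∩ vals Λ false Y ∪ T)
      (Sum.elim y (fun i : Fin n => zt (Λ (ty i)) (z i))) Set.subset_union_right (by
        have hup : ∀ v, v ∈ clo (IFd K) (T ∪ Set.range y) → v ∈ clo (IFd K) (T ∪ Set.range
            (Sum.elim y (fun i : Fin n => zt (Λ (ty i)) (z i)))) := by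
          intro v hv
          refine clo_le (fun x hx => ?_) hv
          rcases hx with hx | ⟨j, rfl⟩
          · exact subset_clo (Or.inl hx)
          · exact subset_clo (Or.inr ⟨Sum.inl j, rfl⟩)
        rintro x ((⟨l, rfl⟩ | ⟨l, rfl⟩) | (⟨i, rfl⟩ | ⟨i, rfl⟩ | ⟨i, rfl⟩))
        · exact Or.inr (hup _ (hy _ _ (htY l)))
        · exact Or.inl (Or.inl (hexp l))
        · exact Or.inr (hup _ (hy _ _ (hzY i)))
        · exact Or.inr (subset_clo (Or.inr ⟨Sum.inr i, rfl⟩))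
        · exact Or.inl (Or.inl (hwp i)))
    have h3 := h1.trans h2
    rw [Fintype.card_sum, Fintype.card_fin] at h3
    have hTR : ∀ R : ℕ∞, ((s + 2 * n + 1 : ℕ) : ℕ∞) ≤ R + ((Fintype.card ι + n : ℕ) : ℕ∞) →
        ((s + (1 + false.toNat) * n + 1 : ℕ) : ℕ∞) ≤ R + (Fintype.card ι : ℕ∞) := by
      intro R hR
      rcases eq_or_ne R ⊤ with rfl | hne
      · simp
      · obtain ⟨r, rfl⟩ := ENat.ne_top_iff_exists.1 hne
        have h5 : s + 2 * n + 1 ≤ r + (Fintype.card ι + n) := by exact_mod_cast hR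
        have h6 : s + (1 + false.toNat) * n + 1 ≤ r + Fintype.card ι := by
          simp only [Bool.toNat_false]
          omega
        exact_mod_cast h6
    exact hTR _ h3

end Pool.Agent.H61GM
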