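import Mathlib
import Pool.Agent.H61GM.B

/-!
# Generic multipliers for tori and several elliptic curves: the main inequality
-/

set_option autoImplicit false

open Filter Finset Module
open scoped Topology PeriodPair ComplexConjugate

noncomputable section

namespace Pool.Agent.H61GM

open H667R3 Pool.Agent.W245.EB Pool.Agent.TH813.Ell Pool.Agent.Y685
open Pool.Agent.TH813.G (NoHom)
open Pool.Agent.TH813.Rel (DF MK subset_cl rk_le_of_subset_cl exists_derF toENat_trdeg)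
open Pool.Agent.Y776 (ET ET_finite)
open Pool.Agent.Y776.Cv (EPM EPM_finite)
open Pool.Agent.H39D (Cl exists_Cl Ind rank_one)
open Pool.Agent.H39E (dE dE_li dE_mono fd_span disj Gen kL_mem' list_finite finite_nat)

variable {q : ℕ} {Λ : Fin q → PeriodPair} {K : Subfield ℂ}

/-- the weight of a family of spaces -/
def wt (b : Bool) (V : ∀ o, Submodule (kk Λ o) ℂ) : ℕ :=
  finrank (kk Λ none) (V none) + (1 + b.toNat) * ∑ c, finrank (kk Λ (some c)) (V (some c))

/-- the part of the spaces in a closed field -/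
def prt (hK : ∀ x, IsAlgebraic K x → x ∈ K) (V : ∀ o, Submodule (kk Λ o) ℂ) :
    ∀ o, Submodule (kk Λ o) ℂ := fun o => V o ⊓ KS hK o

theorem prt_le (hK : ∀ x, IsAlgebraic K x → x ∈ K) (V : ∀ o, Submodule (kk Λ o) ℂ) (o) :
    prt hK V o ≤ V o := inf_le_left

theorem wt_add {b : Bool} {U V W : ∀ o, Submodule (kk Λ o) ℂ}
    (h : ∀ o, finrank (kk Λ o) (U o) + finrank (kk Λ o) (V o) = finrank (kk Λ o) (W o)) :
    wt b U + wt b V = wt b W := by
  unfold wt
  have h4 : ∑ c, finrank (kk Λ (some c)) (U (some c)) +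
      ∑ c, finrank (kk Λ (some c)) (V (some c)) = ∑ c, finrank (kk Λ (some c)) (W (some c)) := by
    rw [← Finset.sum_add_distrib]
    exact Finset.sum_congr rfl (fun c _ => h (some c))
  have h5 := h none
  have h6 := congrArg (fun m => (1 + b.toNat) * m) h4
  simp only [mul_add (1 + b.toNat)] at h6
  omega

theorem split (hK : Cl Λ K) (hni : ∀ c c', c ≠ c' → NoHom (Λ c) (Λ c')) (b : Bool)
    {ι : Type} [Fintype ι] (Z : ι → Set ℂ) (hZf : ∀ i, (Z i).Finite) (hZK : ∀ i, Z i ⊆ K)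
    (β : Option (Fin q) → ι)
    (V : ∀ o, Submodule (kk Λ o) ℂ) (hfd : ∀ o, FiniteDimensional (kk Λ o) (V o)) {T : Set ℂ}
    (hT : T.Finite) (E : ι → IntermediateField ℚ ℂ) (hE : ∀ o, kk Λ o ≤ E (β o))
    (hET : ∀ i, E i ≤ clo (IFd K) T) :
    (∀ o, V o ≤ KS hK.alg o) ∨ ∃ (A : Set ℂ) (R : ℕ), A.Finite ∧ A ⊆ vals Λ b V ∧
      (MK (IFd K)).eRk (A ∪ T) = (R : ℕ∞) ∧
      wt b V + 1 + ∑ i, dS (E i) (SZ Z β (prt hK.alg V) i) ≤
      R + ∑ i, dS (E i) (SZ Z β V i) + wt b (prt hK.alg V) := by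
  classical
  choose Y hYV hYA hYn using fun o => exists_rel_compl (prt_le hK.alg V o)
  have hYf : ∀ o, FiniteDimensional (kk Λ o) (Y o) := fun o =>
    Submodule.finiteDimensional_of_le (hYV o)
  rcases Nat.eq_zero_or_pos (∑ o, finrank (kk Λ o) (Y o)) with h0 | hpos
  · left
    intro o
    have h1 : finrank (kk Λ o) (Y o) = 0 := (Finset.sum_eq_zero_iff.1 h0) o (mem_univ _)
    have h2 : prt hK.alg V o = V o := Submodule.eq_of_le_of_finrank_eq (prt_le hK.alg V o) (by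
      have := hYn o
      omega)
    exact inf_eq_left.1 h2
  · right
    have hEi : ∀ i o, β o = i → kk Λ o ≤ E i := by
      rintro i o rfl
      exact hE o
    have hSf : ∀ i, FiniteDimensional (E i) (Submodule.span (E i) (SZ Z β V i)) := fun i =>
      fd_SZ (hZf i) (hEi i) V hfd
    choose D y hD hy using fun i => gens_X (F := IFd K) T (hET i)
      (Submodule.span (E i) (SZ Z β V i)) (Submodule.span (E i) (SZ Z β (prt hK.alg V) i))
      (Submodule.span_mono (SZ_mono (prt_le hK.alg V) i)) (fun x hx => by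
        refine Submodule.span_induction (p := fun x _ => x ∈ clo (IFd K) T) (fun y hy => ?_)
          (zero_mem _) (fun y z _ _ h h' => add_mem h h') (fun c y _ h => ?_) hx
        · rcases hy with hy | ⟨o, -, hyo⟩
          · exact base_clo (hZK i hy)
          · exact base_clo hyo.2
        · exact mul_mem (hET i c.2) h)
    obtain ⟨A, hAf, hAv, hA⟩ := outer hK hni b Y hYf (fun o x hx hxK => by
      have h1 : x ∈ Y o ⊓ prt hK.alg V o := ⟨hx, hYV o hx, hxK⟩
      rw [hYA o] at h1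
      exact (Submodule.mem_bot _).1 h1) hpos (T := T)
      (fun i : (Σ i, Fin (D i)) => y i.1 i.2) (fun o v hv => by
        refine clo_le (fun x hx => ?_) (hy (β o) v (Submodule.subset_span (Or.inr ⟨o, rfl, hYV o hv⟩)))
        rcases hx with hx | ⟨j, rfl⟩
        · exact subset_clo (Or.inl hx)
        · exact subset_clo (Or.inr ⟨⟨β o, j⟩, rfl⟩))
    obtain ⟨R, hR⟩ := finite_nat (k := IFd K) (hAf.union hT)
    refine ⟨A, R, hAf, hAv.trans (vals_mono hYV), hR, ?_⟩
    rw [hR] at hA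
    have h1 : wt b Y + 1 ≤ R + Fintype.card (Σ i, Fin (D i)) := by
      exact_mod_cast hA
    have h2 : Fintype.card (Σ i, Fin (D i)) = ∑ i, D i := by
      rw [Fintype.card_sigma]
      simp
    rw [h2] at h1
    have h3 : ∑ i, D i + ∑ i, dS (E i) (SZ Z β (prt hK.alg V) i) =
        ∑ i, dS (E i) (SZ Z β V i) := by
      rw [← Finset.sum_add_distrib]
      exact Finset.sum_congr rfl (fun i _ => hD i)
    have h4 := wt_add (b := b) hYn
    omega

/-- the points and the values at the points of the spaces -/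
def ptv (Λ : Fin q → PeriodPair) (b : Bool) (V : ∀ o, Submodule (kk Λ o) ℂ) : Set ℂ :=
  (⋃ o, (V o : Set ℂ)) ∪ vals Λ b V

theorem ptv_mono {b : Bool} {V W : ∀ o, Submodule (kk Λ o) ℂ} (h : ∀ o, V o ≤ W o) :
    ptv Λ b V ⊆ ptv Λ b W :=
  Set.union_subset_union (Set.iUnion_mono h) (vals_mono h)

theorem split_pts (hK : Cl Λ K) (hni : ∀ c c', c ≠ c' → NoHom (Λ c) (Λ c')) (b : Bool)
    (V : ∀ o, Submodule (kk Λ o) ℂ) (hfd : ∀ o, FiniteDimensional (kk Λ o) (V o)) {T : Set ℂ}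
    (hT : T.Finite) :
    (∀ o, V o ≤ KS hK.alg o) ∨ ∃ (A : Set ℂ) (R : ℕ), A.Finite ∧ A ⊆ ptv Λ b V ∧
      (MK (IFd K)).eRk (A ∪ T) = (R : ℕ∞) ∧ wt b V + 1 ≤ R + wt b (prt hK.alg V) := by
  classical
  choose Y hYV hYA hYn using fun o => exists_rel_compl (prt_le hK.alg V o)
  have hYf : ∀ o, FiniteDimensional (kk Λ o) (Y o) := fun o =>
    Submodule.finiteDimensional_of_le (hYV o)
  rcases Nat.eq_zero_or_pos (∑ o, finrank (kk Λ o) (Y o)) with h0 | hpos
  · left
    intro o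
    have h1 : finrank (kk Λ o) (Y o) = 0 := (Finset.sum_eq_zero_iff.1 h0) o (mem_univ _)
    have h2 : prt hK.alg V o = V o := Submodule.eq_of_le_of_finrank_eq (prt_le hK.alg V o) (by
      have := hYn o
      omega)
    exact inf_eq_left.1 h2
  · right
    choose p hp hpY using fun o => exists_fam (Y o)
    have hPf : (⋃ o, Set.range (p o)).Finite := Set.finite_iUnion fun o => Set.finite_range (p o)
    obtain ⟨A, hAf, hAv, hA⟩ := outer hK hni b Y hYf (fun o x hx hxK => by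
      have h1 : x ∈ Y o ⊓ prt hK.alg V o := ⟨hx, hYV o hx, hxK⟩
      rw [hYA o] at h1
      exact (Submodule.mem_bot _).1 h1) hpos (T := (⋃ o, Set.range (p o)) ∪ T)
      (Fin.elim0 : Fin 0 → ℂ) (fun o v hv => by
        rw [← hpY o] at hv
        refine Submodule.span_induction (p := fun x _ => x ∈ clo (IFd K)
          (((⋃ o, Set.range (p o)) ∪ T) ∪ Set.range (Fin.elim0 : Fin 0 → ℂ))) (fun y hy => ?_)
          (zero_mem _) (fun y z _ _ h h' => add_mem h h') (fun c y _ h => ?_) hv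
        · exact subset_clo (Or.inl (Or.inl (Set.mem_iUnion.2 ⟨o, hy⟩)))
        · exact mul_mem (kk_clo _ _ o c.2) h)
    have hfin : (A ∪ ⋃ o, Set.range (p o)).Finite := hAf.union hPf
    obtain ⟨R, hR⟩ := finite_nat (k := IFd K) (hfin.union hT)
    refine ⟨A ∪ ⋃ o, Set.range (p o), R, hfin, ?_, hR, ?_⟩
    · rintro x (hx | hx)
      · exact Or.inr (vals_mono hYV (hAv hx))
      · obtain ⟨o, j, rfl⟩ := Set.mem_iUnion.1 hx
        refine Or.inl (Set.mem_iUnion.2 ⟨o, hYV o ?_⟩)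
        rw [← hpY o]
        exact Submodule.subset_span ⟨j, rfl⟩
    · rw [← Set.union_assoc, hR, Fintype.card_fin] at hA
      have h1 : wt b Y + 1 ≤ R + 0 := by exact_mod_cast hA
      have h4 := wt_add (b := b) hYn
      omega

section

variable {k : Type} [Field k] [Algebra k ℂ] {S : Set ℂ} (hS : S.Countable)

theorem base_all (hk : ∀ x : k, algebraMap k ℂ x ∈ (CL Λ hS []).1) (l : List ℂ) :
    ∀ x : k, algebraMap k ℂ x ∈ (CL Λ hS l).1 := fun x => CL_nil_le hS l (hk x)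

/-- the main inequality -/
theorem main (hni : ∀ c c', c ≠ c' → NoHom (Λ c) (Λ c'))
    (hk : ∀ x : k, algebraMap k ℂ x ∈ (CL Λ hS []).1) (b : Bool)
    {ι : Type} [Fintype ι] (Z : ι → Set ℂ) (hZf : ∀ i, (Z i).Finite)
    (hZK : ∀ i, Z i ⊆ (CL Λ hS []).1) (β : Option (Fin q) → ι)
    (M : List ℂ → ι → IntermediateField ℚ ℂ)
    (hkM : ∀ l o, kk Λ o ≤ M l (β o)) (hM0 : ∀ i, M [] i ≤ IFd (CL Λ hS []).1)
    (hM1 : ∀ a l i, M (a :: l) i ≤ clo (IFd (CL Λ hS l).1) {a})
    (hM2 : ∀ a l i, a ∉ (CL Λ hS l).1 → ∀ X : Set ℂ, X ⊆ (CL Λ hS l).1 →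
      FiniteDimensional (M l i) (Submodule.span (M l i) X) → dS (M l i) X ≤ dS (M (a :: l) i) X)
    (l : List ℂ) (hl : Gen (fun a => (CL Λ hS a).1) l) : ∀ (V : ∀ o, Submodule (kk Λ o) ℂ),
    (∀ o, FiniteDimensional (kk Λ o) (V o)) → ∃ (A : Set ℂ) (R : ℕ), A.Finite ∧ A ⊆ vals Λ b V ∧
      (MK k).eRk (A ∪ {x | x ∈ l}) = (R : ℕ∞) ∧
      wt b V + l.length + ∑ i, dS (M [] i) (SZ Z β (prt (CL Λ hS []).2.alg V) i) ≤
      R + ∑ i, dS (M l i) (SZ Z β V i) + wt b (prt (CL Λ hS []).2.alg V) := by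
  classical
  induction l with
  | nil =>
    intro V hfd
    have hK := (CL Λ hS []).2
    have hTl : ({x | x ∈ ([] : List ℂ)} : Set ℂ) = ∅ := by
      ext x
      simp
    rcases split hK hni b Z hZf hZK β V hfd (T := ∅) Set.finite_empty (M []) (hkM [])
      (fun i x hx => base_clo (hM0 i hx)) with h | ⟨A, R, hAf, hAv, hAR, hA⟩
    · obtain ⟨R, hR⟩ := finite_nat (k := k) ((Set.finite_empty (α := ℂ)).union (list_finite []))
      refine ⟨∅, R, Set.finite_empty, Set.empty_subset _, hR, ?_⟩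
      have h1 : prt hK.alg V = V := funext fun o => inf_eq_left.2 (h o)
      rw [h1, List.length_nil]
      omega
    · obtain ⟨R', hR'⟩ := finite_nat (k := k) (hAf.union (list_finite []))
      refine ⟨A, R', hAf, hAv, hR', ?_⟩
      have h2 : R ≤ R' := by
        have h3 := base_le' (k := k) hk (hAf.union (list_finite []))
        rw [hR', hTl, hAR] at h3
        exact_mod_cast h3
      rw [List.length_nil]
      omega
  | cons a l ih =>
    intro V hfd
    obtain ⟨ha, hl'⟩ := hl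
    have hK := (CL Λ hS l).2
    have hkl := base_all hS hk l
    have hset : {x | x ∈ a :: l} = {x | x ∈ l} ∪ {a} := by
      ext x
      simp only [Set.mem_union, Set.mem_ofPred_eq, Set.mem_singleton_iff, List.mem_cons]
      tauto
    have hV'f : ∀ o, FiniteDimensional (kk Λ o) (prt hK.alg V o) :=
      fun o => Submodule.finiteDimensional_of_le (prt_le hK.alg V o)
    obtain ⟨A₁, R₁, hA₁f, hA₁v, hR₁, hA₁⟩ := ih hl' (prt hK.alg V) hV'f
    have hA₁K : A₁ ∪ {x | x ∈ l} ⊆ (CL Λ hS l).1 := by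
      rintro x (hx | hx)
      · exact vals_mem (V := prt hK.alg V) hK
          (fun o y (hy : y ∈ V o ⊓ KS hK.alg o) => hy.2) (hA₁v hx)
      · exact CL_list hS l x hx
    have hEi : ∀ i o, β o = i → kk Λ o ≤ M l i := by
      rintro i o rfl
      exact hkM l o
    have hd1 : ∑ i, dS (M l i) (SZ Z β (prt hK.alg V) i) ≤
        ∑ i, dS (M (a :: l) i) (SZ Z β (prt hK.alg V) i) :=
      Finset.sum_le_sum (fun i _ => hM2 a l i ha _ (by
          rintro x (hx | ⟨o, -, hx⟩)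
          · exact CL_nil_le hS l (hZK i hx)
          · exact hx.2) (fd_SZ (hZf i) (hEi i) _ hV'f))
    have hpp : prt (CL Λ hS []).2.alg (prt hK.alg V) = prt (CL Λ hS []).2.alg V := by
      funext o
      ext x
      constructor
      · rintro ⟨⟨h1, -⟩, h2⟩
        exact ⟨h1, h2⟩
      · rintro ⟨h1, h2⟩
        exact ⟨⟨h1, CL_nil_le hS l h2⟩, h2⟩
    rw [hpp] at hA₁
    rcases split hK hni b Z hZf (fun i x hx => CL_nil_le hS l (hZK i hx)) β V hfd (T := {a}) (Set.finite_singleton a)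
      (M (a :: l)) (hkM (a :: l)) (hM1 a l) with
      h | ⟨A₂, R₂, hA₂f, hA₂v, hR₂, hA₂⟩
    · have hVV : prt hK.alg V = V := funext fun o => inf_eq_left.2 (h o)
      obtain ⟨R, hR⟩ := finite_nat (k := k) (hA₁f.union (list_finite (a :: l)))
      refine ⟨A₁, R, hA₁f, hA₁v.trans (vals_mono (prt_le hK.alg V)), hR, ?_⟩
      have h1 := union_ge (k := k) hK.alg hkl (hA₁f.union (list_finite l))
        (Set.finite_singleton a) hA₁K
      have h2 := rank_point hK.alg ha
      have h3 : (A₁ ∪ {x | x ∈ l}) ∪ {a} = A₁ ∪ {x | x ∈ a :: l} := by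
        rw [hset, Set.union_assoc]
      obtain ⟨R₂, hR₂⟩ := finite_nat (k := IFd (CL Λ hS l).1) (Set.finite_singleton a)
      have h1' : (R₁ : ℕ∞) + (R₂ : ℕ∞) ≤ (R : ℕ∞) := by
        rw [← hR₁, ← hR₂, ← hR, ← h3]
        exact h1
      rw [hR₂] at h2
      have i1 : 1 ≤ R₂ := by exact_mod_cast h2
      have i2 : R₁ + R₂ ≤ R := by exact_mod_cast h1'
      rw [hVV] at hA₁ hd1
      rw [List.length_cons]
      clear h1 h1' h3 hR hR₁ hR₂ hA₁v hA₁K
      omega
    · obtain ⟨R, hR⟩ := finite_nat (k := k) ((hA₁f.union hA₂f).union (list_finite (a :: l)))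
      refine ⟨A₁ ∪ A₂, R, hA₁f.union hA₂f, Set.union_subset
        (hA₁v.trans (vals_mono (prt_le hK.alg V))) hA₂v, hR, ?_⟩
      have h1 := union_ge (k := k) hK.alg hkl (hA₁f.union (list_finite l))
        (hA₂f.union (Set.finite_singleton a)) hA₁K
      have h3 : (A₁ ∪ {x | x ∈ l}) ∪ (A₂ ∪ {a}) = (A₁ ∪ A₂) ∪ {x | x ∈ a :: l} := by
        rw [hset]
        ext x
        simp only [Set.mem_union]
        tauto
      have h1' : (R₁ : ℕ∞) + (R₂ : ℕ∞) ≤ (R : ℕ∞) := by
        rw [← hR₁, ← hR₂, ← hR, ← h3]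
        exact h1
      have i2 : R₁ + R₂ ≤ R := by exact_mod_cast h1'
      rw [List.length_cons]
      clear h1 h1' h3 hR hR₁ hR₂ hA₁v hA₂v hA₁K
      omega

/-- the inequality with the points -/
theorem main_pts (hni : ∀ c c', c ≠ c' → NoHom (Λ c) (Λ c'))
    (hk : ∀ x : k, algebraMap k ℂ x ∈ (CL Λ hS []).1) (b : Bool)
    (l : List ℂ) (hl : Gen (fun a => (CL Λ hS a).1) l) : ∀ (V : ∀ o, Submodule (kk Λ o) ℂ),
    (∀ o, FiniteDimensional (kk Λ o) (V o)) → ∃ (A : Set ℂ) (R : ℕ), A.Finite ∧ A ⊆ ptv Λ b V ∧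
      (MK k).eRk (A ∪ {x | x ∈ l}) = (R : ℕ∞) ∧
      wt b V + l.length ≤ R + wt b (prt (CL Λ hS []).2.alg V) := by
  classical
  induction l with
  | nil =>
    intro V hfd
    have hK := (CL Λ hS []).2
    have hTl : ({x | x ∈ ([] : List ℂ)} : Set ℂ) = ∅ := by
      ext x
      simp
    rcases split_pts hK hni b V hfd (T := ∅) Set.finite_empty with h | ⟨A, R, hAf, hAv, hAR, hA⟩
    · obtain ⟨R, hR⟩ := finite_nat (k := k) ((Set.finite_empty (α := ℂ)).union (list_finite []))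
      refine ⟨∅, R, Set.finite_empty, Set.empty_subset _, hR, ?_⟩
      have h1 : prt hK.alg V = V := funext fun o => inf_eq_left.2 (h o)
      rw [h1, List.length_nil]
      omega
    · obtain ⟨R', hR'⟩ := finite_nat (k := k) (hAf.union (list_finite []))
      refine ⟨A, R', hAf, hAv, hR', ?_⟩
      have h2 : R ≤ R' := by
        have h3 := base_le' (k := k) hk (hAf.union (list_finite []))
        rw [hR', hTl, hAR] at h3
        exact_mod_cast h3
      rw [List.length_nil]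
      omega
  | cons a l ih =>
    intro V hfd
    obtain ⟨ha, hl'⟩ := hl
    have hK := (CL Λ hS l).2
    have hkl := base_all hS hk l
    have hset : {x | x ∈ a :: l} = {x | x ∈ l} ∪ {a} := by
      ext x
      simp only [Set.mem_union, Set.mem_ofPred_eq, Set.mem_singleton_iff, List.mem_cons]
      tauto
    have hV'f : ∀ o, FiniteDimensional (kk Λ o) (prt hK.alg V o) :=
      fun o => Submodule.finiteDimensional_of_le (prt_le hK.alg V o)
    obtain ⟨A₁, R₁, hA₁f, hA₁v, hR₁, hA₁⟩ := ih hl' (prt hK.alg V) hV'f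
    have hA₁K : A₁ ∪ {x | x ∈ l} ⊆ (CL Λ hS l).1 := by
      rintro x (hx | hx)
      · rcases hA₁v hx with hx | hx
        · obtain ⟨o, ho⟩ := Set.mem_iUnion.1 hx
          exact ho.2
        · exact vals_mem (V := prt hK.alg V) hK
            (fun o y (hy : y ∈ V o ⊓ KS hK.alg o) => hy.2) hx
      · exact CL_list hS l x hx
    have hpp : prt (CL Λ hS []).2.alg (prt hK.alg V) = prt (CL Λ hS []).2.alg V := by
      funext o
      ext x
      constructor
      · rintro ⟨⟨h1, -⟩, h2⟩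
        exact ⟨h1, h2⟩
      · rintro ⟨h1, h2⟩
        exact ⟨⟨h1, CL_nil_le hS l h2⟩, h2⟩
    rw [hpp] at hA₁
    rcases split_pts hK hni b V hfd (T := {a}) (Set.finite_singleton a) with
      h | ⟨A₂, R₂, hA₂f, hA₂v, hR₂, hA₂⟩
    · have hVV : prt hK.alg V = V := funext fun o => inf_eq_left.2 (h o)
      obtain ⟨R, hR⟩ := finite_nat (k := k) (hA₁f.union (list_finite (a :: l)))
      refine ⟨A₁, R, hA₁f, hA₁v.trans (ptv_mono (prt_le hK.alg V)), hR, ?_⟩
      have h1 := union_ge (k := k) hK.alg hkl (hA₁f.union (list_finite l))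
        (Set.finite_singleton a) hA₁K
      have h2 := rank_point hK.alg ha
      have h3 : (A₁ ∪ {x | x ∈ l}) ∪ {a} = A₁ ∪ {x | x ∈ a :: l} := by
        rw [hset, Set.union_assoc]
      obtain ⟨R₂, hR₂⟩ := finite_nat (k := IFd (CL Λ hS l).1) (Set.finite_singleton a)
      have h1' : (R₁ : ℕ∞) + (R₂ : ℕ∞) ≤ (R : ℕ∞) := by
        rw [← hR₁, ← hR₂, ← hR, ← h3]
        exact h1
      rw [hR₂] at h2
      have i1 : 1 ≤ R₂ := by exact_mod_cast h2
      have i2 : R₁ + R₂ ≤ R := by exact_mod_cast h1'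
      rw [hVV] at hA₁
      rw [List.length_cons]
      clear h1 h1' h3 hR hR₁ hR₂ hA₁v hA₁K
      omega
    · obtain ⟨R, hR⟩ := finite_nat (k := k) ((hA₁f.union hA₂f).union (list_finite (a :: l)))
      refine ⟨A₁ ∪ A₂, R, hA₁f.union hA₂f, Set.union_subset
        (hA₁v.trans (ptv_mono (prt_le hK.alg V))) hA₂v, hR, ?_⟩
      have h1 := union_ge (k := k) hK.alg hkl (hA₁f.union (list_finite l))
        (hA₂f.union (Set.finite_singleton a)) hA₁K
      have h3 : (A₁ ∪ {x | x ∈ l}) ∪ (A₂ ∪ {a}) = (A₁ ∪ A₂) ∪ {x | x ∈ a :: l} := by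
        rw [hset]
        ext x
        simp only [Set.mem_union]
        tauto
      have h1' : (R₁ : ℕ∞) + (R₂ : ℕ∞) ≤ (R : ℕ∞) := by
        rw [← hR₁, ← hR₂, ← hR, ← h3]
        exact h1
      have i2 : R₁ + R₂ ≤ R := by exact_mod_cast h1'
      rw [List.length_cons]
      clear h1 h1' h3 hR hR₁ hR₂ hA₁v hA₂v hA₁K
      omega

/-- the rational function fields -/
theorem main_rat (hni : ∀ c c', c ≠ c' → NoHom (Λ c) (Λ c'))
    (hk : ∀ x : k, algebraMap k ℂ x ∈ (CL Λ hS []).1) (b : Bool)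
    {ι : Type} [Fintype ι] (Z : ι → Set ℂ) (hZf : ∀ i, (Z i).Finite)
    (hZK : ∀ i, Z i ⊆ (CL Λ hS []).1) (β : Option (Fin q) → ι) (E : ι → IntermediateField ℚ ℂ)
    (hE : ∀ o, kk Λ o ≤ E (β o)) (hEC : ∀ i, E i ≤ IFd (CL Λ hS []).1) (l : List ℂ)
    (hl : Gen (fun a => (CL Λ hS a).1) l) (V : ∀ o, Submodule (kk Λ o) ℂ)
    (hV : ∀ o, FiniteDimensional (kk Λ o) (V o)) : ∃ (A : Set ℂ) (R : ℕ), A.Finite ∧
      A ⊆ vals Λ b V ∧ (MK k).eRk (A ∪ {x | x ∈ l}) = (R : ℕ∞) ∧
      wt b V + l.length + ∑ i, dS (E i) (SZ Z β (prt (CL Λ hS []).2.alg V) i) ≤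
      R + ∑ i, dS (EB (E i) l) (SZ Z β V i) + wt b (prt (CL Λ hS []).2.alg V) := by
  have hEl : ∀ l i, E i ≤ IFd (CL Λ hS l).1 := fun l i x hx => CL_nil_le hS l (hEC i hx)
  obtain ⟨A, R, h1, h2, h3, h4⟩ := main hS hni hk b Z hZf hZK β (fun l i => EB (E i) l)
    (fun l o => (hE o).trans (le_EB _ _)) (fun i => by rw [EB_nil]; exact hEC i)
    (fun a l i => by
      refine EB_le (fun x hx => base_clo (hEl l i hx)) (fun x hx => ?_)
      rcases List.mem_cons.1 hx with rfl | hx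
      · exact subset_clo rfl
      · exact base_clo (CL_list hS l x hx))
    (fun a l i ha X hX hf => disj_S (CL Λ hS l).2.alg (hEl l i) ha (CL_list hS l) X hf hX) l hl V hV
  refine ⟨A, R, h1, h2, h3, ?_⟩
  have h5 : ∑ i, dS ((fun l i => EB (E i) l) [] i) (SZ Z β (prt (CL Λ hS []).2.alg V) i) =
      ∑ i, dS (E i) (SZ Z β (prt (CL Λ hS []).2.alg V) i) :=
    Finset.sum_congr rfl (fun i _ => by simp only [EB_nil])
  rw [h5] at h4
  exact h4

end

end Pool.Agent.H61GM
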