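import Mathlib
import Pool.Agent.H61GM.C

/-!
# Generic multipliers for tori and several elliptic curves: algebraically closed coefficients
-/

set_option autoImplicit false

open Filter Finset Module
open scoped Topology PeriodPair ComplexConjugate

noncomputable section

namespace Pool.Agent.H61GM

open H667R3 Pool.Agent.W245.EB Pool.Agent.TH813.Ell Pool.Agent.Y685
open Pool.Agent.TH813.G (NoHom)
open Pool.Agent.TH813.Rel (DF MK subset_cl rk_le_of_subset_cl exists_derF toENat_trdeg)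
open Pool.Agent.Y776 (ET ET_finite)
open Pool.Agent.Y776.Cv (EPM EPM_finite)
open Pool.Agent.H39D (Cl exists_Cl Ind rank_one)
open Pool.Agent.H39E (dE dE_li dE_mono fd_span disj Gen kL_mem' list_finite finite_nat)

variable {q : ℕ} {Λ : Fin q → PeriodPair} {K : Subfield ℂ}

/-- numbers of a closed field which are independent over an algebraically closed subfield stay
independent if a number outside the closed field is adjoined -/
theorem li_clo (hK : ∀ x, IsAlgebraic K x → x ∈ K) {F : IntermediateField ℚ ℂ} (hF : F ≤ IFd K)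
    {T : Set ℂ} (hT : T ⊆ K) {a : ℂ} (ha : a ∉ K) {m : ℕ} {v : Fin m → ℂ} (hv : ∀ i, v i ∈ K)
    (hli : LinearIndependent (clo F T) v) : LinearIndependent (clo F (insert a T)) v := by
  classical
  have htr : Transcendental (IFd K) a := fun h => ha (hK a h)
  have hai : AlgebraicIndependent (IFd K) (fun _ : Unit => a) :=
    algebraicIndependent_unique_type_iff.2 htr
  obtain ⟨D, hD, hD1⟩ := exists_derF (IFd K) hai (fun _ => 1)
  have hDa : D a = 1 := hD1 ()
  have hDF : D ∈ DF F := fun y hy => hD y (hF hy)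
  have hst : ∀ x ∈ clo F (insert a T), D x ∈ clo F (insert a T) := fun x hx => by
    refine der_clo hDF (fun s hs => ?_) hx
    rcases hs with rfl | hs
    · rw [hDa]
      exact one_mem _
    · rw [hD s (hT hs)]
      exact zero_mem _
  have hker : ∀ x ∈ clo F (insert a T), D x = 0 → x ∈ clo F T := by
    intro x hx h0
    by_contra hcon
    rw [mem_clo_iff] at hx hcon
    have h1 := (MK F).mem_closure_insert hcon hx
    rw [← mem_clo_iff] at h1
    have h2 := h1 D hDF (fun s hs => by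
      rcases hs with rfl | hs
      · exact h0
      · exact hD s (hT hs))
    rw [hDa] at h2
    exact one_ne_zero h2
  rw [Fintype.linearIndependent_iff]
  intro g hg
  by_contra hne
  push Not at hne
  obtain ⟨i₀, hi₀⟩ := hne
  let W : Set (Fin m → ℂ) := {c | (∀ i, c i ∈ clo F (insert a T)) ∧ ∑ i, c i * v i = 0}
  obtain ⟨c, hc, hc0, hcD⟩ := exists_const_vec D W (by
    rintro b ⟨hb, hb0⟩ i hi
    refine ⟨fun j => div_mem (hb j) (hb i), ?_⟩
    have h1 : ∑ j, b j / b i * v j = (∑ j, b j * v j) / b i := by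
      rw [Finset.sum_div]
      exact Finset.sum_congr rfl (fun j _ => by ring)
    rw [h1, hb0, zero_div]) (by
    rintro b ⟨hb, hb0⟩
    refine ⟨fun j => hst _ (hb j), ?_⟩
    have h1 : D (∑ j, b j * v j) = ∑ j, D (b j) * v j := by
      rw [map_sum]
      refine Finset.sum_congr rfl (fun j _ => ?_)
      rw [D_mul, hD (v j) (hv j)]
      ring
    rw [hb0, map_zero] at h1
    exact h1.symm) (a := fun i => (g i : ℂ)) ⟨fun i => (g i).2, hg⟩ (fun h => hi₀ (by
      have := congrFun h i₀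
      exact Subtype.ext this))
  apply hc0
  have h1 := Fintype.linearIndependent_iff.1 hli
    (fun i => (⟨c i, hker _ (hc.1 i) (hcD i)⟩ : clo F T)) hc.2
  funext i
  exact congrArg Subtype.val (h1 i)

/-- a set inside a closed field keeps its dimension -/
theorem disj_clo (hK : ∀ x, IsAlgebraic K x → x ∈ K) {F : IntermediateField ℚ ℂ}
    (hF : F ≤ IFd K) {T : Set ℂ} (hT : T ⊆ K) {a : ℂ} (ha : a ∉ K) (X : Set ℂ)
    (hf : FiniteDimensional (clo F T) (Submodule.span (clo F T) X)) (hX : X ⊆ K) :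
    dS (clo F T) X ≤ dS (clo F (insert a T)) X := by
  have h1 : clo F T ≤ IFd K := clo_le_IFd hK hF hT
  have hle : clo F T ≤ clo F (insert a T) := clo_le (fun s hs => subset_clo (Or.inr hs))
  obtain ⟨p, hp, hpV⟩ := exists_fam (Submodule.span (clo F T) X)
  have h2 : Submodule.span (clo F (insert a T)) (Set.range p) =
      Submodule.span (clo F (insert a T)) X := by
    rw [span_EB hle hpV]
    apply le_antisymm
    · rw [Submodule.span_le]
      intro x hx
      rw [SetLike.mem_coe] at hx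
      refine Submodule.span_induction (fun y hy => Submodule.subset_span hy)
        (Submodule.zero_mem _) (fun y z _ _ h h' => Submodule.add_mem _ h h')
        (fun c y _ h => ?_) hx
      exact Submodule.smul_mem _ (⟨(c : ℂ), hle c.2⟩ : clo F (insert a T)) h
    · exact Submodule.span_mono Submodule.subset_span
  have hpK : ∀ i, p i ∈ K := by
    intro i
    have h5 : p i ∈ Submodule.span (clo F T) X := by
      rw [← hpV]
      exact Submodule.subset_span ⟨i, rfl⟩
    refine Submodule.span_induction (p := fun x _ => x ∈ K) (fun y hy => hX hy)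
      (zero_mem K) (fun y z _ _ h h' => add_mem h h') (fun c y _ h => ?_) h5
    exact mul_mem (h1 c.2 : (c : ℂ) ∈ IFd K) h
  have h6 := li_clo hK hF hT ha hpK hp
  unfold dS
  rw [← h2, finrank_span_eq_card h6, Fintype.card_fin]

/-- a set with a nonzero element generates a space of positive dimension -/
theorem one_le_dS {E : IntermediateField ℚ ℂ} {X : Set ℂ} (h1 : (1 : ℂ) ∈ X)
    (hf : FiniteDimensional E (Submodule.span E X)) : 1 ≤ dS E X := by
  rw [Nat.one_le_iff_ne_zero]
  intro h0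
  have h2 := Submodule.finrank_eq_zero.1 h0
  have h3 : (1 : ℂ) ∈ Submodule.span E X := Submodule.subset_span h1
  rw [h2, Submodule.mem_bot] at h3
  exact one_ne_zero h3

/-- the set of the number one -/
def Z1 : Unit → Set ℂ := fun _ => {1}

theorem Z1_fin (u : Unit) : (Z1 u).Finite := by
  unfold Z1
  exact Set.finite_singleton (1 : ℂ)

theorem Z1_sub {X : Set ℂ} (h : (1 : ℂ) ∈ X) (u : Unit) : Z1 u ⊆ X := by
  unfold Z1
  exact Set.singleton_subset_iff.2 h

/-- one block -/
def β1 (q : ℕ) : Option (Fin q) → Unit := fun _ => ()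

/-- the algebraic closures -/
def M1 (K : Subfield ℂ) : List ℂ → Unit → IntermediateField ℚ ℂ :=
  fun l _ => clo (IFd K) {x | x ∈ l}

theorem SZ1 (V : ∀ o, Submodule (kk Λ o) ℂ) (u : Unit) :
    SZ Z1 (β1 q) V u = {1} ∪ ⋃ o, (V o : Set ℂ) := by
  ext x
  constructor
  · rintro (hx | ⟨o, -, hx⟩)
    · exact Or.inl hx
    · exact Or.inr (Set.mem_iUnion.2 ⟨o, hx⟩)
  · rintro (hx | hx)
    · exact Or.inl hx
    · obtain ⟨o, ho⟩ := Set.mem_iUnion.1 hx
      exact Or.inr ⟨o, rfl, ho⟩

theorem one_mem_SZ1 (V : ∀ o, Submodule (kk Λ o) ℂ) (u : Unit) :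
    (1 : ℂ) ∈ SZ Z1 (β1 q) V u := by
  rw [SZ1 V u]
  exact Set.mem_union_left _ (Set.mem_singleton (1 : ℂ))

theorem one_le_SZ1 {E : IntermediateField ℚ ℂ} (V : ∀ o, Submodule (kk Λ o) ℂ) (u : Unit)
    (hE : ∀ o, kk Λ o ≤ E) (hV : ∀ o, FiniteDimensional (kk Λ o) (V o)) :
    1 ≤ dS E (SZ Z1 (β1 q) V u) := by
  refine one_le_dS (one_mem_SZ1 V u) ?_
  exact fd_SZ (Z := Z1) (β := β1 q) (i := u) (Z1_fin u) (fun o _ => hE o) V hV

section

variable {k : Type} [Field k] [Algebra k ℂ] {S : Set ℂ} (hS : S.Countable)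

theorem M1_step (a : ℂ) (l : List ℂ) (u : Unit) :
    M1 (CL Λ hS []).1 (a :: l) u ≤ clo (IFd (CL Λ hS l).1) {a} := by
  intro x hx D hD hDa
  refine hx D (fun y hy => hD y (CL_nil_le hS l hy)) (fun s hs => ?_)
  rcases List.mem_cons.1 hs with rfl | hs
  · exact hDa s rfl
  · exact hD s (CL_list hS l s hs)

theorem M1_disj (a : ℂ) (l : List ℂ) (u : Unit) (ha : a ∉ (CL Λ hS l).1) (X : Set ℂ)
    (hX : X ⊆ (CL Λ hS l).1) (hf : FiniteDimensional (M1 (CL Λ hS []).1 l u)
      (Submodule.span (M1 (CL Λ hS []).1 l u) X)) :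
    dS (M1 (CL Λ hS []).1 l u) X ≤ dS (M1 (CL Λ hS []).1 (a :: l) u) X := by
  have hset : ({x | x ∈ a :: l} : Set ℂ) = insert a {x | x ∈ l} := by
    ext x
    simp only [Set.mem_ofPred_eq, Set.mem_insert_iff, List.mem_cons]
  have h := disj_clo (CL Λ hS l).2.alg (F := IFd (CL Λ hS []).1) (CL_nil_le hS l)
    (T := {x | x ∈ l}) (CL_list hS l) ha X hf hX
  rw [← hset] at h
  exact h

/-- the algebraically closed fields of coefficients -/
theorem main_clo (hni : ∀ c c', c ≠ c' → NoHom (Λ c) (Λ c'))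
    (hk : ∀ x : k, algebraMap k ℂ x ∈ (CL Λ hS []).1) (b : Bool) (l : List ℂ)
    (hl : Gen (fun a => (CL Λ hS a).1) l) (V : ∀ o, Submodule (kk Λ o) ℂ)
    (hV : ∀ o, FiniteDimensional (kk Λ o) (V o)) : ∃ (A : Set ℂ) (R : ℕ), A.Finite ∧
      A ⊆ vals Λ b V ∧ (MK k).eRk (A ∪ {x | x ∈ l}) = (R : ℕ∞) ∧
      wt b V + l.length + 1 ≤
      R + dS (M1 (CL Λ hS []).1 l ()) ({1} ∪ ⋃ o, (V o : Set ℂ)) +
        wt b (prt (CL Λ hS []).2.alg V) := by
  obtain ⟨A, R, h1, h2, h3, h4⟩ := main (k := k) hS hni hk b Z1 Z1_fin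
    (Z1_sub (one_mem (CL Λ hS []).1)) (β1 q)
    (M1 (CL Λ hS []).1) (fun l o => kk_clo _ _ o)
    (fun _ => clo_le_IFd (CL Λ hS []).2.alg le_rfl (fun x hx => absurd hx List.not_mem_nil))
    (M1_step hS) (M1_disj hS) l hl V hV
  refine ⟨A, R, h1, h2, h3, ?_⟩
  have e1 : ∑ i, dS (M1 (CL Λ hS []).1 [] i) (SZ Z1 (β1 q) (prt (CL Λ hS []).2.alg V) i) =
      dS (M1 (CL Λ hS []).1 [] ()) (SZ Z1 (β1 q) (prt (CL Λ hS []).2.alg V) ()) :=
    Fintype.sum_unique _
  have e2 : ∑ i, dS (M1 (CL Λ hS []).1 l i) (SZ Z1 (β1 q) V i) =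
      dS (M1 (CL Λ hS []).1 l ()) (SZ Z1 (β1 q) V ()) :=
    Fintype.sum_unique _
  rw [e1, e2, SZ1 V] at h4
  have h5 := one_le_SZ1 (E := M1 (CL Λ hS []).1 [] ()) (prt (CL Λ hS []).2.alg V) ()
    (fun o => kk_clo _ _ o) (fun o => Submodule.finiteDimensional_of_le (prt_le _ V o))
  exact le_trans (Nat.add_le_add_left h5 _) h4

end

end Pool.Agent.H61GM
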