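import Mathlib
import Pool.Agent.H61GM.D

/-!
# Generic multipliers for tori and several elliptic curves: points of the Lie algebra
-/

set_option autoImplicit false

open Filter Finset Module
open scoped Topology PeriodPair ComplexConjugate

noncomputable section

namespace Pool.Agent.H61GM

open H667R3 Pool.Agent.W245.EB Pool.Agent.TH813.Ell Pool.Agent.Y685
open Pool.Agent.TH813.G (NoHom)
open Pool.Agent.TH813.Rel (DF MK subset_cl rk_le_of_subset_cl exists_derF toENat_trdeg)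
open Pool.Agent.Y776 (ET ET_finite lg lgL)
open Pool.Agent.Y776.Cv (EPM EPM_finite)
open Pool.Agent.H39D (Cl exists_Cl Ind rank_one)
open Pool.Agent.H39E (dE dE_li dE_mono fd_span disj Gen kL_mem' list_finite finite_nat)

variable {q : ℕ} {Λ : Fin q → PeriodPair} {K : Subfield ℂ}

/-- a linear subspace of the Lie algebra which is defined over a field -/
theorem span_L {M : IntermediateField ℚ ℂ} {s n : ℕ}
    (L : Submodule ℂ ((Fin s → ℂ) × (Fin n → ℂ)))
    (hL : L ≤ Submodule.span ℂ {v | v ∈ L ∧ (∀ l, v.1 l ∈ M) ∧ ∀ i, v.2 i ∈ M})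
    {r : (Fin s → ℂ) × (Fin n → ℂ)} (hr : r ∈ L) :
    ∃ c : Fin (finrank ℂ L) → ℂ, (∀ l, r.1 l ∈ Submodule.span M (Set.range c)) ∧
      ∀ i, r.2 i ∈ Submodule.span M (Set.range c) := by
  classical
  obtain ⟨b, hbS, hbs, hbl⟩ := exists_linearIndependent ℂ
    {v : (Fin s → ℂ) × (Fin n → ℂ) | v ∈ L ∧ (∀ l, v.1 l ∈ M) ∧ ∀ i, v.2 i ∈ M}
  have hbL : Submodule.span ℂ b = L := by
    apply le_antisymm
    · rw [Submodule.span_le]
      exact fun v hv => (hbS hv).1
    · rw [hbs]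
      exact hL
  have hbf : b.Finite := hbl.setFinite
  have : Fintype b := hbf.fintype
  have hcard : Fintype.card b = finrank ℂ L := by
    rw [← hbL, finrank_span_set_eq_card hbl, Set.toFinset_card]
  let e : Fin (finrank ℂ L) ≃ b := (Fintype.equivFinOfCardEq hcard).symm
  have hr' : r ∈ Submodule.span ℂ (Set.range (fun j => ((e j : b) : (Fin s → ℂ) × (Fin n → ℂ)))) := by
    have h1 : Set.range (fun j => ((e j : b) : (Fin s → ℂ) × (Fin n → ℂ))) = b := by
      ext v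
      constructor
      · rintro ⟨j, rfl⟩
        exact (e j).2
      · intro hv
        exact ⟨e.symm ⟨v, hv⟩, by simp⟩
    rw [h1, hbL]
    exact hr
  obtain ⟨c, hc⟩ := (Submodule.mem_span_range_iff_exists_fun ℂ).1 hr'
  refine ⟨c, fun l => ?_, fun i => ?_⟩
  · have h1 : r.1 l = ∑ j, ((e j : b) : (Fin s → ℂ) × (Fin n → ℂ)).1 l * c j := by
      rw [← hc, Prod.fst_sum, Finset.sum_apply]
      exact Finset.sum_congr rfl (fun j _ => mul_comm _ _)
    rw [h1]
    exact sum_mem (fun j _ => Submodule.smul_mem _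
      (⟨_, (hbS (e j).2).2.1 l⟩ : M) (Submodule.subset_span ⟨j, rfl⟩))
  · have h1 : r.2 i = ∑ j, ((e j : b) : (Fin s → ℂ) × (Fin n → ℂ)).2 i * c j := by
      rw [← hc, Prod.snd_sum, Finset.sum_apply]
      exact Finset.sum_congr rfl (fun j _ => mul_comm _ _)
    rw [h1]
    exact sum_mem (fun j _ => Submodule.smul_mem _
      (⟨_, (hbS (e j).2).2.2 i⟩ : M) (Submodule.subset_span ⟨j, rfl⟩))

/-- an affine subspace of the Lie algebra which is defined over a field -/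
theorem span_aff {M : IntermediateField ℚ ℂ} {s n : ℕ}
    (L : Submodule ℂ ((Fin s → ℂ) × (Fin n → ℂ)))
    (hL : L ≤ Submodule.span ℂ {v | v ∈ L ∧ (∀ l, v.1 l ∈ M) ∧ ∀ i, v.2 i ∈ M})
    {v r : (Fin s → ℂ) × (Fin n → ℂ)} (hv1 : ∀ l, v.1 l ∈ M) (hv2 : ∀ i, v.2 i ∈ M)
    (hr : r - v ∈ L) :
    ∃ c : Fin (finrank ℂ L + 1) → ℂ, (1 : ℂ) ∈ Submodule.span M (Set.range c) ∧
      (∀ l, r.1 l ∈ Submodule.span M (Set.range c)) ∧
      ∀ i, r.2 i ∈ Submodule.span M (Set.range c) := by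
  obtain ⟨c, h1, h2⟩ := span_L L hL hr
  have h3 : ∀ x, x ∈ Submodule.span M (Set.range c) →
      x ∈ Submodule.span M (Set.range (Fin.cons 1 c : Fin (finrank ℂ L + 1) → ℂ)) := by
    intro x hx
    refine Submodule.span_mono ?_ hx
    rintro _ ⟨j, rfl⟩
    exact ⟨j.succ, by rw [Fin.cons_succ]⟩
  have h4 : (1 : ℂ) ∈ Submodule.span M
      (Set.range (Fin.cons 1 c : Fin (finrank ℂ L + 1) → ℂ)) :=
    Submodule.subset_span ⟨0, by rw [Fin.cons_zero]⟩
  have h5 : ∀ x ∈ M, x ∈ Submodule.span M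
      (Set.range (Fin.cons 1 c : Fin (finrank ℂ L + 1) → ℂ)) := by
    intro x hx
    have h6 := Submodule.smul_mem _ (⟨x, hx⟩ : M) h4
    have h7 : (⟨x, hx⟩ : M) • (1 : ℂ) = x := mul_one x
    rwa [h7] at h6
  refine ⟨Fin.cons 1 c, h4, fun l => ?_, fun i => ?_⟩
  · have h6 : r.1 l = (r - v).1 l + v.1 l := by
      rw [Prod.fst_sub, Pi.sub_apply]
      ring
    rw [h6]
    exact Submodule.add_mem _ (h3 _ (h1 l)) (h5 _ (hv1 l))
  · have h6 : r.2 i = (r - v).2 i + v.2 i := by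
      rw [Prod.snd_sub, Pi.sub_apply]
      ring
    rw [h6]
    exact Submodule.add_mem _ (h3 _ (h2 i)) (h5 _ (hv2 i))

/-- the spaces of the components of a point -/
def VR (Λ : Fin q → PeriodPair) {s n : ℕ} (ty : Fin n → Fin q) (r : (Fin s → ℂ) × (Fin n → ℂ)) :
    ∀ o, Submodule (kk Λ o) ℂ
  | none => Submodule.span _ (Set.range r.1)
  | some c => Submodule.span _ {x | ∃ i, ty i = c ∧ x = r.2 i}

theorem VR_fd {s n : ℕ} (ty : Fin n → Fin q) (r : (Fin s → ℂ) × (Fin n → ℂ)) (o) :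
    FiniteDimensional (kk Λ o) (VR Λ ty r o) := by
  rcases o with _ | c
  · exact FiniteDimensional.span_of_finite _ (Set.finite_range _)
  · refine FiniteDimensional.span_of_finite _ ((Set.finite_range r.2).subset ?_)
    rintro x ⟨i, -, rfl⟩
    exact ⟨i, rfl⟩

/-- the components have no relations modulo `K` -/
def Fre (Λ : Fin q → PeriodPair) {s n : ℕ} (ty : Fin n → Fin q) (K : Set ℂ)
    (r : (Fin s → ℂ) × (Fin n → ℂ)) : Prop :=
  (∀ a : Fin s → ℚ, ∑ l, (a l : ℂ) * r.1 l ∈ K → a = 0) ∧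
    ∀ (c : Fin q) (a : Fin n → ℂ), (∀ i, a i ∈ kL (Λ c)) → (∀ i, ty i ≠ c → a i = 0) →
      ∑ i, a i * r.2 i ∈ K → a = 0

theorem Fre.li0 {s n : ℕ} {ty : Fin n → Fin q} {K : Set ℂ} (h0 : (0 : ℂ) ∈ K)
    {r : (Fin s → ℂ) × (Fin n → ℂ)} (h : Fre Λ ty K r) :
    LinearIndependent (kk Λ none) r.1 := by
  rw [Fintype.linearIndependent_iff]
  intro g hg
  have h1 : ∀ l, ∃ a : ℚ, (a : ℂ) = (g l : ℂ) := by
    intro l
    obtain ⟨a, ha⟩ := IntermediateField.mem_bot.1 (g l).2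
    exact ⟨a, by rw [← ha]; rfl⟩
  choose a ha using h1
  have h2 := h.1 a (by
    have h3 : ∑ l, (a l : ℂ) * r.1 l = ∑ l, g l • r.1 l :=
      Finset.sum_congr rfl (fun l _ => by rw [ha l]; rfl)
    rw [h3, hg]
    exact h0)
  intro l
  apply Subtype.ext
  rw [← ha l, h2]
  simp

theorem sum_fib {n : ℕ} {ty : Fin n → Fin q} {c : Fin q} (a : Fin n → ℂ) (z : Fin n → ℂ)
    (ha : ∀ i, ty i ≠ c → a i = 0) :
    ∑ i : {i // ty i = c}, a i * z i = ∑ i, a i * z i := by
  classical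
  rw [← Finset.sum_subtype (Finset.univ.filter (fun i => ty i = c)) (by simp)
    (fun i => a i * z i), Finset.sum_filter]
  refine Finset.sum_congr rfl (fun i _ => ?_)
  split_ifs with h
  · rfl
  · rw [ha i h, zero_mul]

theorem Fre.li1 {s n : ℕ} {ty : Fin n → Fin q} {K : Set ℂ} (h0 : (0 : ℂ) ∈ K)
    {r : (Fin s → ℂ) × (Fin n → ℂ)} (h : Fre Λ ty K r) (c : Fin q) :
    LinearIndependent (kk Λ (some c)) (fun i : {i // ty i = c} => r.2 i) := by
  classical
  rw [Fintype.linearIndependent_iff]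
  intro g hg
  let a : Fin n → ℂ := fun i => if hi : ty i = c then (g ⟨i, hi⟩ : ℂ) else 0
  have ha : ∀ i, ty i ≠ c → a i = 0 := fun i hi => by
    simp only [a, dif_neg hi]
  have h2 := h.2 c a (fun i => by
    by_cases hi : ty i = c
    · simp only [a, dif_pos hi]
      exact (g ⟨i, hi⟩).2
    · rw [ha i hi]
      exact zero_mem _) ha (by
    rw [← sum_fib a r.2 ha]
    have h3 : ∑ i : {i // ty i = c}, a i * r.2 i = ∑ i : {i // ty i = c}, g i • r.2 i := by
      refine Finset.sum_congr rfl (fun i _ => ?_)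
      simp only [a, dif_pos i.2]
      rfl
    rw [h3, hg]
    exact h0)
  intro i
  have h3 := congrFun h2 i
  simp only [a, dif_pos i.2, Pi.zero_apply] at h3
  exact Subtype.ext h3

theorem VR_some {s n : ℕ} (ty : Fin n → Fin q) (r : (Fin s → ℂ) × (Fin n → ℂ)) (c : Fin q) :
    VR Λ ty r (some c) = Submodule.span (kk Λ (some c))
      (Set.range (fun i : {i // ty i = c} => r.2 i)) := by
  have h1 : {x | ∃ i, ty i = c ∧ x = r.2 i} = Set.range (fun i : {i // ty i = c} => r.2 i) := by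
    ext x
    constructor
    · rintro ⟨i, hi, rfl⟩
      exact ⟨⟨i, hi⟩, rfl⟩
    · rintro ⟨i, rfl⟩
      exact ⟨i, i.2, rfl⟩
  rw [← h1]
  rfl

theorem Fre.dims {s n : ℕ} {ty : Fin n → Fin q} {K : Set ℂ} (h0 : (0 : ℂ) ∈ K)
    {r : (Fin s → ℂ) × (Fin n → ℂ)} (h : Fre Λ ty K r) (b : Bool) :
    wt b (VR Λ ty r) = s + (1 + b.toNat) * n := by
  classical
  have h1 : finrank (kk Λ none) (VR Λ ty r none) = s := by
    change finrank (kk Λ none) (Submodule.span (kk Λ none) (Set.range r.1)) = s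
    rw [finrank_span_eq_card (h.li0 h0), Fintype.card_fin]
  have h2 : ∑ c, finrank (kk Λ (some c)) (VR Λ ty r (some c)) = n := by
    have h3 : ∀ c, finrank (kk Λ (some c)) (VR Λ ty r (some c)) =
        Fintype.card {i // ty i = c} := by
      intro c
      rw [VR_some, finrank_span_eq_card (h.li1 h0 c)]
    rw [Finset.sum_congr rfl (fun c _ => h3 c), ← Fintype.card_sigma,
      Fintype.card_congr (Equiv.sigmaFiberEquiv ty), Fintype.card_fin]
  unfold wt
  rw [h1, h2]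

/-- no component space of a free point meets the field -/
theorem Fre.inf {s n : ℕ} {ty : Fin n → Fin q} (hK : ∀ x, IsAlgebraic K x → x ∈ K)
    {r : (Fin s → ℂ) × (Fin n → ℂ)} (h : Fre Λ ty (K : Set ℂ) r) (o) :
    prt hK (VR Λ ty r) o = ⊥ := by
  classical
  rw [eq_bot_iff]
  rintro x ⟨hx, hxK⟩
  rw [Submodule.mem_bot]
  rcases o with _ | c
  · obtain ⟨g, rfl⟩ := (Submodule.mem_span_range_iff_exists_fun (kk Λ none)).1 hx
    have h1 : ∀ l, ∃ a : ℚ, (a : ℂ) = (g l : ℂ) := by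
      intro l
      obtain ⟨a, ha⟩ := IntermediateField.mem_bot.1 (g l).2
      exact ⟨a, by rw [← ha]; rfl⟩
    choose a ha using h1
    have h3 : ∑ l, g l • r.1 l = ∑ l, (a l : ℂ) * r.1 l :=
      Finset.sum_congr rfl (fun l _ => by rw [ha l]; rfl)
    rw [h3]
    have h2 := h.1 a (by rw [← h3]; exact hxK)
    rw [h2]
    simp
  · rw [VR_some] at hx
    obtain ⟨g, rfl⟩ := (Submodule.mem_span_range_iff_exists_fun (kk Λ (some c))).1 hx
    let a : Fin n → ℂ := fun i => if hi : ty i = c then (g ⟨i, hi⟩ : ℂ) else 0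
    have ha : ∀ i, ty i ≠ c → a i = 0 := fun i hi => by
      simp only [a, dif_neg hi]
    have h3 : ∑ i : {i // ty i = c}, g i • r.2 i = ∑ i, a i * r.2 i := by
      rw [← sum_fib a r.2 ha]
      refine Finset.sum_congr rfl (fun i _ => ?_)
      simp only [a, dif_pos i.2]
      rfl
    have h2 := h.2 c a (fun i => by
      by_cases hi : ty i = c
      · simp only [a, dif_pos hi]
        exact (g ⟨i, hi⟩).2
      · rw [ha i hi]
        exact zero_mem _) ha (by rw [← h3]; exact hxK)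
    rw [h3, h2]
    simp

/-- the numbers whose values are killed by a derivation -/
def Kd (δ : Derivation ℚ ℂ ℂ) (h2 : ∀ c, δ (Λ c).g₂ = 0) (h3 : ∀ c, δ (Λ c).g₃ = 0) :
    ∀ o, Submodule (kk Λ o) ℂ
  | none =>
    { carrier := {x | lg δ x = 0}
      add_mem' := fun {x y} hx hy => by
        have hx' : lg δ x = 0 := hx
        have hy' : lg δ y = 0 := hy
        change lg δ (x + y) = 0
        rw [Pool.Agent.Y776.lg_add, hx', hy', add_zero]
      zero_mem' := (lgL δ).map_zero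
      smul_mem' := fun a x hx => by
        have hx' : lg δ x = 0 := hx
        obtain ⟨r, hr⟩ := IntermediateField.mem_bot.1 a.2
        have e1 : a • x = r • x := by
          change (a : ℂ) * x = _
          rw [← hr, Rat.smul_def]
          rfl
        change lg δ (a • x) = 0
        rw [e1]
        have h4 := (lgL δ).map_smul r x
        have h5 : lgL δ x = 0 := hx'
        rw [h5, smul_zero] at h4
        exact h4 }
  | some c =>
    { carrier := {x | om (Λ c) δ x = 0}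
      add_mem' := fun {x y} hx hy => by
        have hx' : om (Λ c) δ x = 0 := hx
        have hy' : om (Λ c) δ y = 0 := hy
        change om (Λ c) δ (x + y) = 0
        rw [om_add (Λ c) δ (h2 c) (h3 c), hx', hy', add_zero]
      zero_mem' := om_zero δ
      smul_mem' := fun a x hx => by
        have hx' : om (Λ c) δ x = 0 := hx
        obtain ⟨κ, hE⟩ := exists_eig (Λ c)
        change om (Λ c) δ ((a : ℂ) * x) = 0
        rw [hE.om_mul δ (h2 c) (h3 c) a a.2, hx', mul_zero] }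

/-- the components of the image of a point -/
def img (Λ : Fin q → PeriodPair) {s n : ℕ} (ty : Fin n → Fin q)
    (r : (Fin s → ℂ) × (Fin n → ℂ)) : Set ℂ :=
  {w | (∃ l, w = Complex.exp (r.1 l)) ∨
    ∃ i, r.2 i ∉ (Λ (ty i)).lattice ∧ (w = ℘[Λ (ty i)] (r.2 i) ∨ w = ℘'[Λ (ty i)] (r.2 i))}

theorem VR_le_Kd {δ : Derivation ℚ ℂ ℂ} (h2 : ∀ c, δ (Λ c).g₂ = 0) (h3 : ∀ c, δ (Λ c).g₃ = 0)
    {s n : ℕ} {ty : Fin n → Fin q} {r : (Fin s → ℂ) × (Fin n → ℂ)}
    (h : ∀ x ∈ img Λ ty r, δ x = 0) (o) : VR Λ ty r o ≤ Kd δ h2 h3 o := by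
  rcases o with _ | c
  · refine Submodule.span_le.2 ?_
    rintro _ ⟨l, rfl⟩
    change δ (Complex.exp (r.1 l)) / Complex.exp (r.1 l) = 0
    rw [h _ (Or.inl ⟨l, rfl⟩), zero_div]
  · refine Submodule.span_le.2 ?_
    rintro _ ⟨i, rfl, rfl⟩
    change om (Λ (ty i)) δ (r.2 i) = 0
    exact om_of_killed (fun hz => h _ (Or.inr ⟨i, hz, Or.inl rfl⟩))

theorem vals_killed {δ : Derivation ℚ ℂ ℂ} (h2 : ∀ c, δ (Λ c).g₂ = 0)
    (h3 : ∀ c, δ (Λ c).g₃ = 0) {V : ∀ o, Submodule (kk Λ o) ℂ} (h : ∀ o, V o ≤ Kd δ h2 h3 o)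
    {w : ℂ} (hw : w ∈ vals Λ false V) : δ w = 0 := by
  rcases hw with ⟨x, hx, rfl⟩ | ⟨c, x, hx, hxL, rfl | ⟨hb, -⟩⟩
  · have h1 : δ (Complex.exp x) / Complex.exp x = 0 := h none hx
    exact (div_eq_zero_iff.1 h1).resolve_right (Complex.exp_ne_zero _)
  · exact (wp_killed (h2 c) (h3 c) (h (some c) hx) hxL).1
  · exact absurd hb Bool.false_ne_true

end Pool.Agent.H61GM
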