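import Mathlib
import Pool.Agent.H61GM.E

/-!
# Generic multipliers for tori and several elliptic curves: final forms
-/

set_option autoImplicit false

open Filter Finset Module
open scoped Topology PeriodPair ComplexConjugate

noncomputable section

namespace Pool.Agent.H61GM

open H667R3 Pool.Agent.W245.EB Pool.Agent.TH813.Ell Pool.Agent.Y685
open Pool.Agent.TH813.G (NoHom)
open Pool.Agent.TH813.Rel (DF MK subset_cl rk_le_of_subset_cl exists_derF toENat_trdeg mem_cl)
open Pool.Agent.Y776 (ET ET_finite lg lgL)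
open Pool.Agent.Y776.Cv (EPM EPM_finite)
open Pool.Agent.H39D (Cl exists_Cl Ind rank_one)
open Pool.Agent.H39E (dE dE_li dE_mono fd_span disj Gen kL_mem' list_finite finite_nat trd_mono)

variable {q : ℕ} {Λ : Fin q → PeriodPair} {K : Subfield ℂ}

/-- the dimension of `V + u V` -/
theorem dim_two {Bf : IntermediateField ℚ ℂ} {u : ℂ} (hu : Transcendental Bf u) (V : Submodule Bf ℂ)
    [FiniteDimensional Bf V] :
    finrank Bf V + finrank (EB Bf [u]) (Submodule.span (EB Bf [u]) (V : Set ℂ)) ≤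
      finrank Bf (V ⊔ V.map (LinearMap.mulLeft Bf u) : Submodule Bf ℂ) := by
  classical
  have hu0 : u ≠ 0 := by
    rintro rfl
    exact hu isAlgebraic_zero
  obtain ⟨μ, hμ⟩ : ∃ μ : ℂ →ₗ[Bf] ℂ, μ = LinearMap.mulLeft Bf u := ⟨_, rfl⟩
  have hμx : ∀ x, μ x = u * x := fun x => by rw [hμ]; rfl
  rw [← hμ]
  have hμi : Function.Injective μ := by
    rw [hμ]
    exact mul_right_injective₀ hu0
  obtain ⟨U, hU⟩ : ∃ U : Submodule Bf ℂ, U = V ⊓ V.comap μ := ⟨_, rfl⟩
  have hUV : U ≤ V := hU ▸ inf_le_left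
  have hUf : FiniteDimensional Bf U := Submodule.finiteDimensional_of_le hUV
  have h1 : V ⊓ V.map μ = U.map μ := by
    rw [hU]
    ext x
    constructor
    · rintro ⟨hx, v, hv, rfl⟩
      exact ⟨v, ⟨hv, hx⟩, rfl⟩
    · rintro ⟨v, ⟨hv, hv'⟩, rfl⟩
      exact ⟨hv', v, hv, rfl⟩
  have h2 := Submodule.finrank_sup_add_finrank_inf_eq V (V.map μ)
  rw [h1] at h2
  have h3 : finrank Bf (U.map μ) = finrank Bf U :=
    (Submodule.equivMapOfInjective μ hμi U).finrank_eq.symm
  have h4 : finrank Bf (V.map μ) = finrank Bf V :=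
    (Submodule.equivMapOfInjective μ hμi V).finrank_eq.symm
  obtain ⟨Y, hYV, hYU, hYn⟩ := exists_rel_compl hUV
  have hYf : FiniteDimensional Bf Y := Submodule.finiteDimensional_of_le hYV
  have hsup : Y ⊔ U = V := by
    apply Submodule.eq_of_le_of_finrank_eq (sup_le hYV hUV)
    have h5 := Submodule.finrank_sup_add_finrank_inf_eq Y U
    rw [hYU, finrank_bot] at h5
    omega
  -- the space generated by the complement
  obtain ⟨M, hM⟩ : ∃ M, M = Submodule.span (EB Bf [u]) (Y : Set ℂ) := ⟨_, rfl⟩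
  have hYM : ∀ y ∈ Y, y ∈ M := fun y hy => hM ▸ Submodule.subset_span hy
  have hUM : ∀ x ∈ U, x ∈ M := by
    obtain ⟨b, hb⟩ : ∃ b, b = finBasis Bf U := ⟨_, rfl⟩
    obtain ⟨w, hw⟩ : ∃ w : Fin (finrank Bf U) → ℂ, w = fun i => (b i : ℂ) := ⟨_, rfl⟩
    have hrep : ∀ x ∈ U, ∃ g : Fin (finrank Bf U) → Bf, x = ∑ j, (g j : ℂ) * w j := by
      intro x hx
      refine ⟨b.repr ⟨x, hx⟩, ?_⟩
      have h6 := congrArg (Submodule.subtype U) (b.sum_repr ⟨x, hx⟩)
      rw [map_sum] at h6
      rw [hw]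
      exact h6.symm
    have hstep : ∀ i, ∃ (y : ℂ) (g : Fin (finrank Bf U) → Bf), y ∈ Y ∧
        u * w i = y + ∑ j, (g j : ℂ) * w j := by
      intro i
      have h5 : (b i : ℂ) ∈ V ⊓ V.comap μ := hU ▸ (b i).2
      have h6 : u * w i ∈ Y ⊔ U := by
        rw [hsup, ← hμx, hw]
        exact h5.2
      obtain ⟨y, hy, z, hz, hyz⟩ := Submodule.mem_sup.1 h6
      obtain ⟨g, hg⟩ := hrep z hz
      exact ⟨y, g, hy, by rw [← hyz, ← hg]⟩
    choose y A hy hA using hstep
    -- the matrices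
    obtain ⟨uE, huE⟩ : ∃ uE : EB Bf [u], (uE : ℂ) = u := ⟨⟨u, mem_EB (by simp)⟩, rfl⟩
    obtain ⟨B, hB⟩ : ∃ B : Matrix (Fin (finrank Bf U)) (Fin (finrank Bf U)) (EB Bf [u]),
        B = Matrix.scalar _ uE - Matrix.of
          (fun i j => (⟨(A i j : ℂ), le_EB Bf [u] (A i j).2⟩ : EB Bf [u])) := ⟨_, rfl⟩
    obtain ⟨B', hB'⟩ : ∃ B' : Matrix (Fin (finrank Bf U)) (Fin (finrank Bf U)) ℂ,
        B' = (algebraMap (EB Bf [u]) ℂ).mapMatrix B := ⟨_, rfl⟩
    have hB'' : B' = Matrix.scalar _ u - (Matrix.of A).map (algebraMap Bf ℂ) := by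
      rw [hB', hB, map_sub]
      congr 1
      ext i j
      by_cases hij : i = j
      · subst hij
        simp only [RingHom.mapMatrix_apply, Matrix.map_apply, Matrix.scalar_apply,
          Matrix.diagonal_apply_eq]
        exact huE
      · simp only [RingHom.mapMatrix_apply, Matrix.map_apply, Matrix.scalar_apply,
          Matrix.diagonal_apply_ne _ hij, map_zero]
    have hdet : B'.det ≠ 0 := by
      rw [hB'', ← Matrix.eval_charpoly, Matrix.charpoly_map, Polynomial.eval_map_algebraMap]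
      exact fun h => hu ⟨_, (Matrix.charpoly_monic _).ne_zero, h⟩
    have hBw : B'.mulVec w = y := by
      rw [hB'', Matrix.sub_mulVec]
      funext i
      rw [Pi.sub_apply]
      have e1 : (Matrix.scalar (Fin (finrank Bf U)) u).mulVec w i = u * w i := by
        rw [Matrix.scalar_apply, Matrix.mulVec_diagonal]
      have e2 : ((Matrix.of A).map (algebraMap Bf ℂ)).mulVec w i =
          ∑ j, (A i j : ℂ) * w j := rfl
      rw [e1, e2, hA i]
      ring
    have hdE : algebraMap (EB Bf [u]) ℂ B.det = B'.det := by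
      rw [hB', RingHom.map_det]
    have hBdet : B.det ≠ 0 := by
      intro h0
      apply hdet
      rw [← hdE, h0, map_zero]
    have hadj : ∀ j, B'.det * w j = ∑ i, ((B.adjugate j i : EB Bf [u]) : ℂ) * y i := by
      intro j
      have h5 : B'.adjugate.mulVec (B'.mulVec w) = B'.adjugate.mulVec y := by rw [hBw]
      rw [Matrix.mulVec_mulVec, Matrix.adjugate_mul, Matrix.smul_mulVec, Matrix.one_mulVec] at h5
      have h6 := congrFun h5 j
      rw [Pi.smul_apply, smul_eq_mul] at h6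
      rw [h6]
      have h7 : B'.adjugate = (algebraMap (EB Bf [u]) ℂ).mapMatrix B.adjugate := by
        rw [RingHom.map_adjugate, hB']
      rw [h7]
      rfl
    have hwM : ∀ j, w j ∈ M := by
      intro j
      have h5 : w j = B.det⁻¹ • ∑ i, (B.adjugate j i) • y i := by
        have h6 : (∑ i, (B.adjugate j i) • y i) = B'.det * w j := (hadj j).symm
        rw [h6, ← hdE]
        change w j = ((B.det⁻¹ : EB Bf [u]) : ℂ) * ((B.det : ℂ) * w j)
        have h7 : ((B.det⁻¹ : EB Bf [u]) : ℂ) = ((B.det : EB Bf [u]) : ℂ)⁻¹ := rfl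
        have h8 : ((B.det : EB Bf [u]) : ℂ) ≠ 0 := fun h => hBdet (Subtype.ext h)
        rw [h7, inv_mul_cancel_left₀ h8]
      rw [h5]
      exact Submodule.smul_mem _ _ (sum_mem (fun i _ => Submodule.smul_mem _ _ (hYM _ (hy i))))
    intro x hx
    obtain ⟨g, hg⟩ := hrep x hx
    rw [hg]
    exact sum_mem (fun j _ => Submodule.smul_mem M
      (⟨(g j : ℂ), le_EB Bf [u] (g j).2⟩ : EB Bf [u]) (hwM j))
  have hspan : Submodule.span (EB Bf [u]) (V : Set ℂ) ≤ M := by
    rw [Submodule.span_le]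
    intro x hx
    rw [← hsup] at hx
    obtain ⟨y, hy, z, hz, rfl⟩ := Submodule.mem_sup.1 hx
    exact add_mem (hYM y hy) (hUM z hz)
  have hMr : M = Submodule.span (EB Bf [u]) (Set.range fun i => ((finBasis Bf Y) i : ℂ)) := by
    rw [hM]
    apply le_antisymm
    · rw [Submodule.span_le]
      intro x hx
      have h6 := congrArg (Submodule.subtype Y) ((finBasis Bf Y).sum_repr ⟨x, hx⟩)
      rw [map_sum] at h6
      have h7 : x = ∑ i, (((finBasis Bf Y).repr ⟨x, hx⟩ i : Bf) : ℂ) *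
          ((finBasis Bf Y) i : ℂ) := h6.symm
      rw [h7]
      exact sum_mem (fun j _ => Submodule.smul_mem _
        (⟨(((finBasis Bf Y).repr ⟨x, hx⟩ j : Bf) : ℂ), le_EB Bf [u]
          ((finBasis Bf Y).repr ⟨x, hx⟩ j).2⟩ : EB Bf [u]) (Submodule.subset_span ⟨j, rfl⟩))
    · rw [Submodule.span_le]
      rintro _ ⟨i, rfl⟩
      exact Submodule.subset_span ((finBasis Bf Y) i).2
  have hMf : FiniteDimensional (EB Bf [u]) M := by
    rw [hMr]
    exact fd_span _ _
  have h5 : finrank (EB Bf [u]) (Submodule.span (EB Bf [u]) (V : Set ℂ)) ≤ finrank Bf Y := by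
    refine (Submodule.finrank_mono hspan).trans ?_
    rw [hMr]
    refine (finrank_range_le_card _).trans ?_
    rw [Fintype.card_fin]
  omega

end Pool.Agent.H61GM
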