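import Mathlib
import Pool.Agent.H61GM.F

/-!
# Generic multipliers for tori and several elliptic curves: transcendence degrees
-/

set_option autoImplicit false

open Filter Finset Module
open scoped Topology PeriodPair ComplexConjugate

noncomputable section

namespace Pool.Agent.H61GM

open H667R3 Pool.Agent.W245.EB Pool.Agent.TH813.Ell Pool.Agent.Y685
open Pool.Agent.TH813.G (NoHom)
open Pool.Agent.TH813.Rel (DF MK subset_cl rk_le_of_subset_cl exists_derF toENat_trdeg mem_cl)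
open Pool.Agent.Y776 (ET ET_finite lg lgL)
open Pool.Agent.Y776.Cv (EPM EPM_finite)
open Pool.Agent.H39D (Cl exists_Cl Ind rank_one)
open Pool.Agent.H39E (dE dE_li dE_mono fd_span disj Gen kL_mem' list_finite finite_nat trd_mono)

variable {q : ℕ} {Λ : Fin q → PeriodPair} {K : Subfield ℂ}

theorem to_card {k : Type} [Field k] [Algebra k ℂ] {A X : Set ℂ} {l : List ℂ} {R a b : ℕ}
    (hA : A.Finite) (hAX : A ⊆ X) (hR : (MK k).eRk (A ∪ {x | x ∈ l}) = (R : ℕ∞))
    (h : a ≤ R + b) :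
    (a : Cardinal) ≤ Algebra.trdeg k (IntermediateField.adjoin k ({x | x ∈ l} ∪ X)) +
      (b : Cardinal) := by
  obtain ⟨r, hr, hr'⟩ := trd_eq k (hA.union (list_finite l))
  rw [hR] at hr
  have h0 : R = r := by exact_mod_cast hr
  have hsub : A ∪ {x | x ∈ l} ⊆ {x | x ∈ l} ∪ X := by
    rintro x (hx | hx)
    · exact Or.inr (hAX hx)
    · exact Or.inl hx
  have h1 := trd_mono (k := k) hsub
  rw [hr', ← h0] at h1
  refine le_trans ?_ (add_le_add h1 le_rfl)
  exact_mod_cast h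

/-- numbers which are algebraic over a finite set -/
theorem to_card' {k : Type} [Field k] [Algebra k ℂ] {A X : Set ℂ} {l : List ℂ} {R a b : ℕ}
    (hX : X.Finite) (hAX : A ⊆ (MK k).closure X)
    (hR : (MK k).eRk (A ∪ {x | x ∈ l}) = (R : ℕ∞)) (h : a ≤ R + b) :
    (a : Cardinal) ≤ Algebra.trdeg k (IntermediateField.adjoin k ({x | x ∈ l} ∪ X)) +
      (b : Cardinal) := by
  obtain ⟨r, hr, hr'⟩ := trd_eq k ((list_finite l).union hX)
  have h1 : (MK k).eRk (A ∪ {x | x ∈ l}) ≤ (MK k).eRk ({x | x ∈ l} ∪ X) := by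
    rw [← (MK k).eRk_closure_eq ({x | x ∈ l} ∪ X)]
    refine (MK k).eRk_mono ?_
    rintro x (hx | hx)
    · exact (MK k).closure_subset_closure Set.subset_union_right (hAX hx)
    · exact (MK k).mem_closure_of_mem (Or.inl hx) (Set.subset_univ _)
  rw [hR, hr] at h1
  have h2 : R ≤ r := by exact_mod_cast h1
  rw [hr']
  exact_mod_cast (h.trans (by omega : R + b ≤ r + b))

theorem img_finite {s n : ℕ} (ty : Fin n → Fin q) (r : (Fin s → ℂ) × (Fin n → ℂ)) :
    (img Λ ty r).Finite := by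
  have h1 : img Λ ty r ⊆
      Set.range (fun l => Complex.exp (r.1 l)) ∪ (Set.range (fun i => ℘[Λ (ty i)] (r.2 i)) ∪
        Set.range (fun i => ℘'[Λ (ty i)] (r.2 i))) := by
    rintro w (⟨l, rfl⟩ | ⟨i, -, rfl | rfl⟩)
    · exact Or.inl ⟨l, rfl⟩
    · exact Or.inr (Or.inl ⟨i, rfl⟩)
    · exact Or.inr (Or.inr ⟨i, rfl⟩)
  exact ((Set.finite_range _).union ((Set.finite_range _).union (Set.finite_range _))).subset h1

theorem FR_eq (K : Subfield ℂ) : FR K = IFd K := by
  ext x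
  constructor
  · rintro ⟨y, rfl⟩
    exact y.2
  · intro hx
    exact ⟨⟨x, hx⟩, rfl⟩

theorem MK_eq (K : Subfield ℂ) : MK (IFd K) = MK K := by
  rw [← FR_eq, MK_FR]

theorem mem_aclo (K : Subfield ℂ) (S : Set ℂ) (x : ℂ) :
    x ∈ clo (IFd K) S ↔ IsAlgebraic (Algebra.adjoin K S) x := by
  rw [mem_clo_iff, MK_eq, mem_cl]

/-- the values at the spaces of the components are algebraic over the components of the image -/
theorem vals_cl (hK : Cl Λ K) {V : ∀ o, Submodule (kk Λ o) ℂ} {X : Set ℂ}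
    (h : ∀ (δ : Derivation ℚ ℂ ℂ) (h2 : ∀ c, δ (Λ c).g₂ = 0) (h3 : ∀ c, δ (Λ c).g₃ = 0),
      (∀ x ∈ X, δ x = 0) → ∀ o, V o ≤ Kd δ h2 h3 o) : vals Λ false V ⊆ (MK K).closure X := by
  intro w hw
  rw [← MK_eq, ← mem_clo_iff]
  intro δ hδ hX
  have h2 : ∀ c, δ (Λ c).g₂ = 0 := fun c => hδ _ (hK.g₂ c)
  have h3 : ∀ c, δ (Λ c).g₃ = 0 := fun c => hδ _ (hK.g₃ c)
  exact vals_killed h2 h3 (h δ h2 h3 hX) hw

theorem wt_bot (b : Bool) : wt b (fun o => (⊥ : Submodule (kk Λ o) ℂ)) = 0 := by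
  unfold wt
  simp

section

variable {S : Set ℂ} (hS : S.Countable)

/-- the algebraic closure of the field generated by a list -/
theorem mem_M1 (K : Subfield ℂ) (l : List ℂ) (x : ℂ) :
    x ∈ M1 K l () ↔ IsAlgebraic (Algebra.adjoin K {x | x ∈ l}) x := mem_aclo K _ x

/-- the spaces of the components inside a linear span -/
theorem dS_VR {M : IntermediateField ℚ ℂ} (hM : ∀ o, kk Λ o ≤ M) {s n m : ℕ} (ty : Fin n → Fin q)
    (r : (Fin s → ℂ) × (Fin n → ℂ)) (c : Fin m → ℂ) (h1 : (1 : ℂ) ∈ Submodule.span M (Set.range c))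
    (hc1 : ∀ l, r.1 l ∈ Submodule.span M (Set.range c))
    (hc2 : ∀ i, r.2 i ∈ Submodule.span M (Set.range c)) :
    dS M ({1} ∪ ⋃ o, (VR Λ ty r o : Set ℂ)) ≤ m := by
  have h3 : Submodule.span M ({1} ∪ ⋃ o, (VR Λ ty r o : Set ℂ)) ≤
      Submodule.span M (Set.range c) := by
    rw [Submodule.span_le]
    intro x hx
    rcases hx with hx | hx
    · rw [Set.mem_singleton_iff.1 hx]
      exact h1
    · obtain ⟨o, ho⟩ := Set.mem_iUnion.1 hx
      have ho' : x ∈ VR Λ ty r o := ho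
      rcases o with _ | c'
      · refine Submodule.span_induction (p := fun x _ => x ∈ Submodule.span M (Set.range c))
          (fun y hy => ?_) (Submodule.zero_mem _) (fun y z _ _ h h' => Submodule.add_mem _ h h')
          (fun a y _ h => ?_) ho'
        · obtain ⟨j, rfl⟩ := hy
          exact hc1 j
        · exact Submodule.smul_mem _ (⟨(a : ℂ), hM none a.2⟩ : M) h
      · refine Submodule.span_induction (p := fun x _ => x ∈ Submodule.span M (Set.range c))
          (fun y hy => ?_) (Submodule.zero_mem _) (fun y z _ _ h h' => Submodule.add_mem _ h h')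
          (fun a y _ h => ?_) ho'
        · obtain ⟨i, -, rfl⟩ := hy
          exact hc2 i
        · exact Submodule.smul_mem _ (⟨(a : ℂ), hM (some c') a.2⟩ : M) h
  have hf : FiniteDimensional M (Submodule.span M (Set.range c)) :=
    FiniteDimensional.span_of_finite _ (Set.finite_range c)
  unfold dS
  refine (Submodule.finrank_mono h3).trans ?_
  refine (finrank_range_le_card c).trans ?_
  rw [Fintype.card_fin]

/-- **Affine subspaces of the Lie algebra over the algebraic closure of a generic field** -/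
theorem final_L (hni : ∀ c c', c ≠ c' → NoHom (Λ c) (Λ c')) (l : List ℂ)
    (hl : Gen (fun a => (CL Λ hS a).1) l) {s n : ℕ} (ty : Fin n → Fin q)
    (L : Submodule ℂ ((Fin s → ℂ) × (Fin n → ℂ)))
    (hL : L ≤ Submodule.span ℂ {v | v ∈ L ∧ (∀ j, v.1 j ∈ M1 (CL Λ hS []).1 l ()) ∧
      ∀ i, v.2 i ∈ M1 (CL Λ hS []).1 l ()})
    {v r : (Fin s → ℂ) × (Fin n → ℂ)} (hv1 : ∀ j, v.1 j ∈ M1 (CL Λ hS []).1 l ())
    (hv2 : ∀ i, v.2 i ∈ M1 (CL Λ hS []).1 l ()) (hr : r - v ∈ L) :
    ((wt false (VR Λ ty r) + l.length : ℕ) : Cardinal) ≤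
      Algebra.trdeg (CL Λ hS []).1 (IntermediateField.adjoin (CL Λ hS []).1
        ({x | x ∈ l} ∪ img Λ ty r)) +
      ((finrank ℂ L + wt false (prt (CL Λ hS []).2.alg (VR Λ ty r)) : ℕ) : Cardinal) := by
  obtain ⟨A, R, hAf, hAv, hR, h⟩ := main_clo (k := (CL Λ hS []).1) hS hni (fun x => x.2) false l
    hl (VR Λ ty r) (VR_fd ty r)
  obtain ⟨c, hc, hc1, hc2⟩ := span_aff L hL hv1 hv2 hr
  have h2 := dS_VR (Λ := Λ) (M := M1 (CL Λ hS []).1 l ()) (fun o => kk_clo _ _ o) ty r c hc hc1 hc2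
  refine to_card' (R := R) (img_finite ty r) (hAv.trans (vals_cl (CL Λ hS []).2
    (fun δ h2 h3 hX o => VR_le_Kd h2 h3 hX o))) hR ?_
  omega

/-- the components of a point -/
def cps {s n : ℕ} (r : (Fin s → ℂ) × (Fin n → ℂ)) : Set ℂ := Set.range r.1 ∪ Set.range r.2

/-- **The points together with the values** -/
theorem final_pts (hni : ∀ c c', c ≠ c' → NoHom (Λ c) (Λ c')) (l : List ℂ)
    (hl : Gen (fun a => (CL Λ hS a).1) l) {s n : ℕ} (ty : Fin n → Fin q)
    (r : (Fin s → ℂ) × (Fin n → ℂ)) :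
    ((wt false (VR Λ ty r) + l.length : ℕ) : Cardinal) ≤
      Algebra.trdeg (CL Λ hS []).1 (IntermediateField.adjoin (CL Λ hS []).1
        ({x | x ∈ l} ∪ (cps r ∪ img Λ ty r))) +
      ((wt false (prt (CL Λ hS []).2.alg (VR Λ ty r)) : ℕ) : Cardinal) := by
  obtain ⟨A, R, hAf, hAv, hR, h⟩ := main_pts (k := (CL Λ hS []).1) hS hni (fun x => x.2) false l
    hl (VR Λ ty r) (VR_fd ty r)
  have hfin : (cps r ∪ img Λ ty r).Finite :=
    ((Set.finite_range _).union (Set.finite_range _)).union (img_finite ty r)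
  refine to_card' (R := R) hfin ?_ hR h
  intro x hx
  rcases hAv hx with hx | hx
  · obtain ⟨o, ho⟩ := Set.mem_iUnion.1 hx
    have ho' : x ∈ VR Λ ty r o := ho
    rw [← MK_eq, ← mem_clo_iff]
    rcases o with _ | c'
    · refine Submodule.span_induction (p := fun x _ => x ∈ clo (IFd (CL Λ hS []).1)
        (cps r ∪ img Λ ty r)) (fun y hy => ?_) (zero_mem _) (fun y z _ _ h h' => add_mem h h')
        (fun a y _ h => ?_) ho'
      · obtain ⟨j, rfl⟩ := hy
        exact subset_clo (Or.inl (Or.inl ⟨j, rfl⟩))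
      · exact mul_mem (kk_clo _ _ none a.2) h
    · refine Submodule.span_induction (p := fun x _ => x ∈ clo (IFd (CL Λ hS []).1)
        (cps r ∪ img Λ ty r)) (fun y hy => ?_) (zero_mem _) (fun y z _ _ h h' => add_mem h h')
        (fun a y _ h => ?_) ho'
      · obtain ⟨i, -, rfl⟩ := hy
        exact subset_clo (Or.inl (Or.inr ⟨i, rfl⟩))
      · exact mul_mem (kk_clo _ _ (some c') a.2) h
  · exact (MK (CL Λ hS []).1).closure_subset_closure Set.subset_union_right
      (vals_cl (CL Λ hS []).2 (fun δ h2 h3 hX o => VR_le_Kd h2 h3 hX o) hx)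

/-- the space `V + u V` -/
def pl (u : ℂ) (V : ∀ o, Submodule (kk Λ o) ℂ) : ∀ o, Submodule (kk Λ o) ℂ :=
  fun o => V o ⊔ (V o).map (LinearMap.mulLeft (kk Λ o) u)

/-- the rank of the values at the points of `V + u V` -/
theorem rank_pl (hni : ∀ c c', c ≠ c' → NoHom (Λ c) (Λ c')) {k : Type} [Field k] [Algebra k ℂ]
    (hk : ∀ x : k, algebraMap k ℂ x ∈ (CL Λ hS []).1) (b : Bool)
    {u : ℂ} (hu : u ∉ (CL Λ hS []).1) (V : ∀ o, Submodule (kk Λ o) ℂ)
    (hV : ∀ o, FiniteDimensional (kk Λ o) (V o)) : ∃ (A : Set ℂ) (R : ℕ), A.Finite ∧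
      A ⊆ vals Λ b (pl u V) ∧ (MK k).eRk (A ∪ {x | x ∈ [u]}) = (R : ℕ∞) ∧
      wt b V + 1 ≤ R := by
  classical
  have hK := (CL Λ hS []).2.alg
  have hW : ∀ o, FiniteDimensional (kk Λ o) (pl u V o) := by
    intro o
    unfold pl
    infer_instance
  obtain ⟨A, R, hAf, hAv, hR, h⟩ := main_rat (ι := Option (Fin q)) (k := k) hS hni hk b
    (fun _ => ∅) (fun _ => Set.finite_empty) (fun _ => Set.empty_subset _) (fun o => o) (kk Λ) (fun o => le_rfl) (fun o => kk_le hK o) [u] ⟨hu, trivial⟩ (pl u V) hW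
  refine ⟨A, R, hAf, hAv, hR, ?_⟩
  have hSJ : ∀ (U : ∀ o, Submodule (kk Λ o) ℂ) o,
      SZ (fun _ => ∅) (fun o => o) U o = (U o : Set ℂ) := by
    intro U o
    ext x
    constructor
    · rintro (hx | ⟨o', rfl, hx⟩)
      · exact absurd hx (Set.notMem_empty x)
      · exact hx
    · intro hx
      exact Or.inr ⟨o, rfl, hx⟩
  have htr : ∀ o, Transcendental (kk Λ o) u := by
    intro o h'
    apply hu
    apply hK
    obtain ⟨P, hP, hP'⟩ := h'
    let f : kk Λ o →+* (CL Λ hS []).1 :=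
      ⟨⟨⟨fun x => ⟨x.1, kk_le hK o x.2⟩, rfl⟩, fun _ _ => rfl⟩, rfl, fun _ _ => rfl⟩
    refine ⟨P.map f, ?_, ?_⟩
    · rw [Ne, Polynomial.map_eq_zero]
      exact hP
    · rw [← hP', Polynomial.aeval_def, Polynomial.eval₂_map, Polynomial.aeval_def]
      rfl
  obtain ⟨d, hd⟩ : ∃ d : Option (Fin q) → ℕ, d = fun o => dS (EB (kk Λ o) [u]) (pl u V o : Set ℂ) :=
    ⟨_, rfl⟩
  obtain ⟨m, hm⟩ : ∃ m : Option (Fin q) → ℕ, m = fun o =>
    finrank (kk Λ o) (prt hK (pl u V) o) := ⟨_, rfl⟩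
  -- the dimension of the sum
  have h1 : ∀ o, finrank (kk Λ o) (V o) + d o ≤ finrank (kk Λ o) (pl u V o) := by
    intro o
    have h2 := dim_two (htr o) (V o)
    have h3 : Submodule.span (EB (kk Λ o) [u]) (pl u V o : Set ℂ) =
        Submodule.span (EB (kk Λ o) [u]) (V o : Set ℂ) := by
      apply le_antisymm
      · rw [Submodule.span_le]
        intro x hx
        obtain ⟨y, hy, z, ⟨v, hv, rfl⟩, rfl⟩ := Submodule.mem_sup.1 hx
        refine add_mem (Submodule.subset_span hy) ?_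
        change u * v ∈ _
        exact Submodule.smul_mem _ (⟨u, mem_EB (by simp)⟩ : EB (kk Λ o) [u])
          (Submodule.subset_span hv)
      · exact Submodule.span_mono (fun x hx => Submodule.mem_sup_left hx)
    have h4 : d o = finrank (EB (kk Λ o) [u]) (Submodule.span (EB (kk Λ o) [u])
        (V o : Set ℂ)) := by
      rw [hd]
      change finrank (EB (kk Λ o) [u]) (Submodule.span (EB (kk Λ o) [u]) (pl u V o : Set ℂ)) = _
      rw [h3]
    rw [h4]
    exact h2
  -- the part in the field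
  have h2 : ∀ o, m o ≤ d o := by
    intro o
    have hpf : FiniteDimensional (kk Λ o) (prt hK (pl u V) o) :=
      Submodule.finiteDimensional_of_le (prt_le hK _ o)
    have h3 := disj_V hK (kk_le hK o) hu (l := []) (by simp) (prt hK (pl u V) o)
      (fun x hx => hx.2)
    rw [EB_nil, dS_self] at h3
    have h4 := fd_up (le_EB (kk Λ o) [u]) (pl u V o)
    have h5 : dS (EB (kk Λ o) [u]) (prt hK (pl u V) o : Set ℂ) ≤
        dS (EB (kk Λ o) [u]) (pl u V o : Set ℂ) :=
      Submodule.finrank_mono (Submodule.span_mono (fun x hx => prt_le hK _ o hx))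
    rw [hm, hd]
    exact h3.trans h5
  have h3 : ∑ o, dS (kk Λ o) (SZ (fun _ => ∅) (fun o => o) (prt hK (pl u V)) o) = ∑ o, m o := by
    refine Finset.sum_congr rfl (fun o _ => ?_)
    rw [hSJ, dS_self, hm]
  have h4 : ∑ o, dS (EB (kk Λ o) [u]) (SZ (fun _ => ∅) (fun o => o) (pl u V) o) = ∑ o, d o := by
    refine Finset.sum_congr rfl (fun o _ => ?_)
    rw [hSJ, hd]
  have h5 : wt b (prt hK (pl u V)) = m none + (1 + b.toNat) * ∑ c, m (some c) := by
    rw [hm]
    rfl
  have h6 : wt b V + (d none + (1 + b.toNat) * ∑ c, d (some c)) ≤ wt b (pl u V) := by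
    unfold wt
    have h7 : ∑ c, finrank (kk Λ (some c)) (V (some c)) + ∑ c, d (some c) ≤
        ∑ c, finrank (kk Λ (some c)) (pl u V (some c)) := by
      rw [← Finset.sum_add_distrib]
      exact Finset.sum_le_sum (fun c _ => h1 (some c))
    have h8 := h1 none
    have h9 := Nat.mul_le_mul_left (1 + b.toNat) h7
    rw [mul_add] at h9
    omega
  have h7 : ∑ c, m (some c) ≤ ∑ c, d (some c) := Finset.sum_le_sum (fun c _ => h2 (some c))
  have h8 := h2 none
  rw [h3, h4, h5, Fintype.sum_option, Fintype.sum_option, List.length_singleton] at h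
  cases b with
  | true =>
    simp only [Bool.toNat_true] at h h6
    omega
  | false =>
    simp only [Bool.toNat_false] at h h6
    omega

theorem smul_VR (x : ℂ) {s n : ℕ} (ty : Fin n → Fin q) (r : (Fin s → ℂ) × (Fin n → ℂ)) (o) :
    (VR Λ ty r o).map (LinearMap.mulLeft (kk Λ o) x) ≤ VR Λ ty (x • r) o := by
  rcases o with _ | c
  · refine Submodule.map_le_iff_le_comap.2 (Submodule.span_le.2 ?_)
    rintro _ ⟨l, rfl⟩
    exact Submodule.subset_span ⟨l, rfl⟩
  · refine Submodule.map_le_iff_le_comap.2 (Submodule.span_le.2 ?_)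
    rintro _ ⟨i, hi, rfl⟩
    exact Submodule.subset_span ⟨i, hi, rfl⟩

/-- **A generic multiplier** -/
theorem final_mult (hni : ∀ c c', c ≠ c' → NoHom (Λ c) (Λ c')) {x : ℂ}
    (hx : x ∉ (CL Λ hS []).1) {s n : ℕ} (ty : Fin n → Fin q) {r : (Fin s → ℂ) × (Fin n → ℂ)}
    (hr : Fre Λ ty {0} r) :
    ((s + n + 1 : ℕ) : Cardinal) ≤
      Algebra.trdeg (CL Λ hS []).1 (IntermediateField.adjoin (CL Λ hS []).1
        ({y | y ∈ [x]} ∪ (img Λ ty r ∪ img Λ ty (x • r)))) := by
  obtain ⟨A, R, hAf, hAv, hR, h⟩ := rank_pl (k := (CL Λ hS []).1) hS hni (fun x => x.2) false hx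
    (VR Λ ty r) (VR_fd ty r)
  rw [hr.dims (Set.mem_singleton 0) false] at h
  have h1 := to_card' (k := (CL Λ hS []).1) (a := s + n + 1) (b := 0) (R := R) (A := A)
    (X := img Λ ty r ∪ img Λ ty (x • r)) (l := [x])
    ((img_finite ty r).union (img_finite ty _)) (hAv.trans (vals_cl (CL Λ hS []).2
    (fun δ h2 h3 hX o => by
      refine sup_le (VR_le_Kd h2 h3 (fun y hy => hX y (Or.inl hy)) o) ?_
      exact (smul_VR x ty r o).trans (VR_le_Kd h2 h3 (fun y hy => hX y (Or.inr hy)) o)))) hR (by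
    have e1 : (1 + false.toNat) * n = n := by simp
    rw [e1] at h
    omega)
  rw [Nat.cast_zero, add_zero] at h1
  exact h1

end

end Pool.Agent.H61GM
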